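import Pool.Agent.H994.Mld.Defs

open Set Metric

namespace H994.Mld

theorem sInf_add (c : ℝ) (S : Set ℝ) (hne : S.Nonempty) (hb : BddBelow S) :
    sInf ((fun x => c + x) '' S) = c + sInf S := by
  have h1 : IsGLB S (sInf S) := isGLB_csInf hne hb
  have h2 : IsGLB ((OrderIso.addLeft c) '' S) ((OrderIso.addLeft c) (sInf S)) :=
    (OrderIso.addLeft c).isGLB_image'.mpr h1
  exact h2.csInf_eq (hne.image _)

theorem kap_tr (v : ℂ) (P : Set ℂ) (hP : P.Nonempty) (hc : IsCompact P) :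
    kap ((fun z => v + z) '' P) = v + kap P := by
  have hb1 : BddBelow (Complex.re '' P) := (hc.image Complex.continuous_re).bddBelow
  have hb2 : BddBelow (Complex.im '' P) := (hc.image Complex.continuous_im).bddBelow
  have e1 : Complex.re '' ((fun z => v + z) '' P) = (fun x => v.re + x) '' (Complex.re '' P) := by
    rw [image_image, image_image]; rfl
  have e2 : Complex.im '' ((fun z => v + z) '' P) = (fun x => v.im + x) '' (Complex.im '' P) := by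
    rw [image_image, image_image]; rfl
  unfold kap
  rw [e1, e2, sInf_add _ _ (hP.image _) hb1, sInf_add _ _ (hP.image _) hb2]
  apply Complex.ext <;> simp

theorem tr_injective {C : Type} (v : ℂ) : Function.Injective (Tile.tr v : Tile C → Tile C) := by
  rintro ⟨a, c⟩ ⟨b, d⟩ h
  simp only [Tile.tr, Prod.mk.injEq] at h
  obtain ⟨h1, h2⟩ := h
  have hinj : Function.Injective (fun z : ℂ => v + z) := add_right_injective v
  rw [hinj.image_injective h1, h2]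

/-- tiles meeting `ball x R` appear in the patch -/
theorem mem_patch {C : Type} (T : Set (Tile C)) (t : Tile C) (ht : t ∈ T) (v x : ℂ) (R : ℝ)
    (h : (t.1 ∩ ball x R).Nonempty) : Tile.tr v t ∈ cap v T (ball (v + x) R) := by
  obtain ⟨z, hz1, hz2⟩ := h
  refine ⟨⟨t, ht, rfl⟩, v + z, ⟨z, hz1, rfl⟩, ?_⟩
  rw [mem_ball, dist_eq_norm] at *
  rwa [add_sub_add_left_eq_sub]

theorem coarse {C : Type} (T : Set (Tile C)) (hT : IsTiling T) (hF : FLC T) :
    (∃ d0 : ℝ, 0 ≤ d0 ∧ ∀ t ∈ T, ∀ z ∈ t.1, ‖z - kap t.1‖ ≤ d0) ∧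
    (∀ R : ℝ, ∃ M : ℕ, ∀ x : ℂ, {t | t ∈ T ∧ ‖kap t.1 - x‖ ≤ R}.Finite ∧
      {t | t ∈ T ∧ ‖kap t.1 - x‖ ≤ R}.ncard ≤ M) ∧
    {d : ℂ | ∃ t ∈ T, ∃ s ∈ T, ∃ x : ℂ, (t.1 ∩ ball x 2).Nonempty ∧ (s.1 ∩ ball x 2).Nonempty ∧
      d = kap t.1 - kap s.1}.Finite := by
  have hkap : ∀ t ∈ T, ∀ v : ℂ, kap (Tile.tr v t).1 = v + kap t.1 := fun t ht v =>
    kap_tr v t.1 (hT.polygon t ht).nonempty (hT.polygon t ht).compact
  have hd : ∃ d0 : ℝ, 0 ≤ d0 ∧ ∀ t ∈ T, ∀ z ∈ t.1, ‖z - kap t.1‖ ≤ d0 := by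
    obtain ⟨F, hFf, hFp, hFx⟩ := hF 1 one_pos
    have hU : (⋃ p ∈ F, p).Finite := hFf.biUnion hFp
    have hb : ∀ u : Tile C, ∃ d : ℝ, IsCompact u.1 → ∀ z ∈ u.1, ‖z - kap u.1‖ ≤ d := by
      intro u
      by_cases hu : IsCompact u.1
      · obtain ⟨d, hd⟩ := hu.isBounded.exists_norm_le
        refine ⟨d + ‖kap u.1‖, fun _ z hz => ?_⟩
        exact (norm_sub_le _ _).trans (by linarith [hd z hz])
      · exact ⟨0, fun h => absurd h hu⟩
    choose d hdd using hb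
    obtain ⟨D, hD⟩ := (hU.image d).bddAbove
    refine ⟨max 0 D, le_max_left _ _, ?_⟩
    intro t ht z hz
    obtain ⟨v, hv⟩ := hFx z
    have hmem := mem_patch T t ht v z 1 ⟨z, hz, mem_ball_self one_pos⟩
    have hmem2 : Tile.tr v t ∈ ⋃ p ∈ F, p := by
      rw [mem_iUnion₂]
      exact ⟨_, hv, hmem⟩
    have hc : IsCompact (Tile.tr v t).1 :=
      (hT.polygon t ht).compact.image (by fun_prop)
    have h1 := hdd (Tile.tr v t) hc (v + z) ⟨z, hz, rfl⟩
    rw [hkap t ht v, add_sub_add_left_eq_sub] at h1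
    have h2 : d (Tile.tr v t) ≤ D := hD ⟨_, hmem2, rfl⟩
    exact h1.trans (h2.trans (le_max_right _ _))
  refine ⟨hd, ?_, ?_⟩
  · obtain ⟨d0, hd0, hdT⟩ := hd
    intro R
    set R' : ℝ := |R| + d0 + 1 with hR'
    have hR'pos : 0 < R' := by positivity
    obtain ⟨F, hFf, hFp, hFx⟩ := hF R' hR'pos
    obtain ⟨M, hM⟩ := (hFf.image Set.ncard).bddAbove
    refine ⟨M, fun x => ?_⟩
    obtain ⟨v, hv⟩ := hFx x
    have hmap : MapsTo (Tile.tr v) {t | t ∈ T ∧ ‖kap t.1 - x‖ ≤ R} (cap v T (ball (v + x) R')) := by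
      rintro t ⟨ht, hx⟩
      obtain ⟨z, hz⟩ := (hT.polygon t ht).nonempty
      apply mem_patch T t ht
      refine ⟨z, hz, ?_⟩
      rw [mem_ball, dist_eq_norm]
      have h1 := hdT t ht z hz
      calc ‖z - x‖ ≤ ‖z - kap t.1‖ + ‖kap t.1 - x‖ := norm_sub_le_norm_sub_add_norm_sub _ _ _
        _ ≤ d0 + |R| := by
          have := le_abs_self R
          linarith
        _ < R' := by rw [hR']; linarith
    have hfin := hFp _ hv
    have hinj : InjOn (Tile.tr v) {t | t ∈ T ∧ ‖kap t.1 - x‖ ≤ R} := (tr_injective v).injOn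
    refine ⟨Set.Finite.of_injOn hmap hinj hfin, ?_⟩
    calc _ ≤ (cap v T (ball (v + x) R')).ncard :=
          Set.ncard_le_ncard_of_injOn (Tile.tr v) (fun t ht => hmap ht) hinj hfin
      _ ≤ M := hM ⟨_, hv, rfl⟩
  · obtain ⟨F, hFf, hFp, hFx⟩ := hF 2 two_pos
    have hfin : (⋃ p ∈ F, Set.image2 (fun a b : Tile C => kap a.1 - kap b.1) p p).Finite :=
      hFf.biUnion fun p hp => (hFp p hp).image2 _ (hFp p hp)
    refine hfin.subset ?_
    rintro d ⟨t, ht, s, hs, x, h1, h2, rfl⟩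
    obtain ⟨v, hv⟩ := hFx x
    rw [mem_iUnion₂]
    refine ⟨_, hv, Tile.tr v t, mem_patch T t ht v x 2 h1, Tile.tr v s, mem_patch T s hs v x 2 h2, ?_⟩
    simp only
    rw [hkap t ht v, hkap s hs v]
    ring

end H994.Mld
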