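import Pool.Agent.H994.Mld.Defs

open Set Metric

namespace H994.Mld

/-- rounding of a complex number to a multiple of `1/N` -/
noncomputable def rnd (N : ℕ) (z : ℂ) : ℂ :=
  ⟨(round ((N : ℝ) * z.re) : ℝ) / N, (round ((N : ℝ) * z.im) : ℝ) / N⟩

theorem rnd_near (N : ℕ) (hN : 0 < N) (z : ℂ) : ‖rnd N z - z‖ ≤ 1 / N := by
  have hN' : (0 : ℝ) < N := by exact_mod_cast hN
  have key : ∀ x : ℝ, |(round ((N : ℝ) * x) : ℝ) / N - x| ≤ 1 / 2 / N := by
    intro x
    have h1 := abs_sub_round ((N : ℝ) * x)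
    rw [abs_sub_comm] at h1
    have h2 : (round ((N : ℝ) * x) : ℝ) / N - x = ((round ((N : ℝ) * x) : ℝ) - N * x) / N := by
      field_simp
    rw [h2, abs_div, abs_of_pos hN']
    gcongr
  calc ‖rnd N z - z‖ ≤ |(rnd N z - z).re| + |(rnd N z - z).im| := Complex.norm_le_abs_re_add_abs_im _
    _ ≤ 1 / 2 / N + 1 / 2 / N := by
        gcongr
        · simpa [rnd] using key z.re
        · simpa [rnd] using key z.im
    _ = 1 / N := by ring

theorem rnd_mul (N : ℕ) (hN : 0 < N) (z : ℂ) :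
    (N : ℂ) * rnd N z = ((round ((N : ℝ) * z.re) : ℤ) : ℂ) + ((round ((N : ℝ) * z.im) : ℤ) : ℂ) * Complex.I := by
  have hN' : (N : ℝ) ≠ 0 := by
    have : (0 : ℝ) < N := by exact_mod_cast hN
    exact this.ne'
  apply Complex.ext
  · simp [rnd]
    field_simp
  · simp [rnd]
    field_simp

theorem exists_rounding (D : Set ℂ) (hD : D.Finite) (ε : ℝ) (hε : 0 < ε) :
    ∃ N : ℕ, 0 < N ∧ ∃ φ : AddSubgroup.closure D →+ ℂ,
      (∀ g, ∃ a b : ℤ, (N : ℂ) * φ g = (a : ℂ) + (b : ℂ) * Complex.I) ∧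
      ∀ (d : ℂ) (hd : d ∈ D), ‖φ ⟨d, AddSubgroup.subset_closure hd⟩ - d‖ ≤ ε := by
  classical
  set G := AddSubgroup.closure D with hG
  have : Finite D := hD
  have hfg : AddGroup.FG G := AddGroup.closure_finite_fg D
  have : Module.Finite ℤ G := Module.Finite.iff_addGroup_fg.mpr hfg
  have : Module.Free ℤ G := inferInstance
  set b := Module.Free.chooseBasis ℤ G with hb
  set ι := Module.Free.ChooseBasisIndex ℤ G with hι
  -- the total coefficient sum
  obtain ⟨c, hc⟩ : ∃ c : G → ℝ, ∀ g, c g = ∑ i : ι, |((b.repr g i : ℤ) : ℝ)| := ⟨_, fun _ => rfl⟩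
  have hc0 : ∀ g, 0 ≤ c g := fun g => by
    rw [hc]; exact Finset.sum_nonneg fun i _ => abs_nonneg _
  obtain ⟨K, hK⟩ : ∃ K : ℝ, ∀ (d : ℂ) (hd : d ∈ D), c ⟨d, AddSubgroup.subset_closure hd⟩ ≤ K := by
    have hfin : (Set.range fun d : D => c ⟨d.1, AddSubgroup.subset_closure d.2⟩).Finite :=
      Set.finite_range _
    obtain ⟨K, hK⟩ := hfin.bddAbove
    exact ⟨K, fun d hd => hK ⟨⟨d, hd⟩, rfl⟩⟩
  obtain ⟨N, hN⟩ := exists_nat_gt (max 1 (K / ε))
  have hN1 : (1 : ℝ) < N := lt_of_le_of_lt (le_max_left _ _) hN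
  have hN2 : K / ε < N := lt_of_le_of_lt (le_max_right _ _) hN
  have hNpos : 0 < N := by
    have : (0 : ℝ) < N := by linarith
    exact_mod_cast this
  have hNpos' : (0 : ℝ) < N := by exact_mod_cast hNpos
  set φ : G →ₗ[ℤ] ℂ := b.constr ℤ (fun i => rnd N ((b i : G) : ℂ)) with hφ
  have hφ1 : ∀ g : G, φ g = ∑ i, (b.repr g i) • rnd N ((b i : G) : ℂ) := by
    intro g
    rw [hφ, Module.Basis.constr_apply_fintype]
    rfl
  refine ⟨N, hNpos, φ.toAddMonoidHom, ?_, ?_⟩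
  · intro g
    refine ⟨∑ i, b.repr g i * round ((N : ℝ) * ((b i : G) : ℂ).re),
      ∑ i, b.repr g i * round ((N : ℝ) * ((b i : G) : ℂ).im), ?_⟩
    change (N : ℂ) * φ g = _
    rw [hφ1, Finset.mul_sum]
    push_cast
    rw [Finset.sum_mul, ← Finset.sum_add_distrib]
    apply Finset.sum_congr rfl
    intro i _
    rw [zsmul_eq_mul]
    have := rnd_mul N hNpos ((b i : G) : ℂ)
    calc (N : ℂ) * (((b.repr g i : ℤ) : ℂ) * rnd N ((b i : G) : ℂ))
        = ((b.repr g i : ℤ) : ℂ) * ((N : ℂ) * rnd N ((b i : G) : ℂ)) := by ring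
      _ = _ := by rw [this]; ring
  · intro d hd
    set g : G := ⟨d, AddSubgroup.subset_closure hd⟩ with hg
    change ‖φ g - d‖ ≤ ε
    have h1 : (d : ℂ) = ∑ i, (b.repr g i) • ((b i : G) : ℂ) := by
      have h2 := b.sum_repr g
      have h3 := congrArg G.subtype h2
      rw [map_sum] at h3
      simp only [map_zsmul, AddSubgroup.coe_subtype] at h3
      exact h3.symm
    have h2 : φ g - d = ∑ i, (b.repr g i) • (rnd N ((b i : G) : ℂ) - ((b i : G) : ℂ)) := by
      rw [hφ1]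
      conv_lhs => rw [h1]
      rw [← Finset.sum_sub_distrib]
      apply Finset.sum_congr rfl
      intro i _
      rw [smul_sub]
    have h3 : ‖φ g - d‖ ≤ (∑ i, |((b.repr g i : ℤ) : ℝ)|) * (1 / N) := by
      rw [h2, Finset.sum_mul]
      refine (norm_sum_le _ _).trans (Finset.sum_le_sum fun i _ => ?_)
      rw [zsmul_eq_mul, norm_mul, Complex.norm_intCast]
      gcongr
      exact rnd_near N hNpos _
    have h4 : (∑ i, |((b.repr g i : ℤ) : ℝ)|) ≤ K := by
      rw [← hc]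
      exact hK d hd
    calc ‖φ g - d‖ ≤ (∑ i, |((b.repr g i : ℤ) : ℝ)|) * (1 / N) := h3
      _ ≤ K * (1 / N) := by gcongr
      _ ≤ ε := by
        rw [div_lt_iff₀ hε] at hN2
        rw [mul_one_div, div_le_iff₀ hNpos']
        linarith

end H994.Mld
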