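import Pool.Agent.H994.Mld.Defs
import Pool.Agent.H994.Mld.C
import Pool.Agent.H994.Mld.R

open Set Metric

namespace H994.Mld

/-- chains of tiles: the difference of two reference points lies in the group generated by the
local differences, and the rounding homomorphism has a small relative error on it. -/
theorem chain {C : Type} (T : Set (Tile C)) (hT : IsTiling T)
    (D : Set ℂ)
    (hD : ∀ t ∈ T, ∀ s ∈ T, ∀ x : ℂ, (t.1 ∩ ball x 2).Nonempty → (s.1 ∩ ball x 2).Nonempty →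
      kap t.1 - kap s.1 ∈ D)
    (ε : ℝ) (φ : AddSubgroup.closure D →+ ℂ)
    (hφ : ∀ (d : ℂ) (hd : d ∈ D), ‖φ ⟨d, AddSubgroup.subset_closure hd⟩ - d‖ ≤ ε) (n : ℕ) :
    ∀ t ∈ T, ∀ s ∈ T, ∀ x ∈ t.1, ∀ y ∈ s.1, ‖x - y‖ ≤ n + 1 →
      ∃ g : AddSubgroup.closure D, (g : ℂ) = kap t.1 - kap s.1 ∧ ‖φ g - g‖ ≤ (n + 1) * ε := by
  induction n with
  | zero =>
    intro t ht s hs x hx y hy hxy
    have h1 : kap t.1 - kap s.1 ∈ D := by
      refine hD t ht s hs x ⟨x, hx, ?_⟩ ⟨y, hy, ?_⟩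
      · simp
      · rw [mem_ball, dist_comm, dist_eq_norm]
        have : ((0 : ℕ) : ℝ) = 0 := by simp
        rw [this] at hxy
        linarith
    refine ⟨⟨_, AddSubgroup.subset_closure h1⟩, rfl, ?_⟩
    have := hφ _ h1
    simpa using this
  | succ n ih =>
    intro t ht s hs x hx y hy hxy
    set w : ℂ := y + ((1 / (n + 2 : ℝ) : ℝ) : ℂ) * (x - y) with hw
    have hn : (0 : ℝ) < n + 2 := by positivity
    obtain ⟨u, hu, hwu⟩ := hT.cover w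
    have e1 : ‖x - w‖ ≤ n + 1 := by
      have : x - w = (((n + 1) / (n + 2 : ℝ) : ℝ) : ℂ) * (x - y) := by
        rw [hw]
        have h2 : (((n + 1) / (n + 2 : ℝ) : ℝ) : ℂ) = 1 - ((1 / (n + 2 : ℝ) : ℝ) : ℂ) := by
          rw [show ((n + 1) / (n + 2 : ℝ) : ℝ) = 1 - 1 / (n + 2 : ℝ) by field_simp; ring]
          push_cast; ring
        rw [h2]; ring
      rw [this, norm_mul, Complex.norm_real, Real.norm_eq_abs, abs_of_nonneg (by positivity)]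
      push_cast at hxy
      calc (n + 1) / (n + 2 : ℝ) * ‖x - y‖ ≤ (n + 1) / (n + 2 : ℝ) * (n + 1 + 1) := by gcongr
        _ = n + 1 := by field_simp; ring
    have e2 : ‖w - y‖ ≤ 1 := by
      have : w - y = ((1 / (n + 2 : ℝ) : ℝ) : ℂ) * (x - y) := by rw [hw]; ring
      rw [this, norm_mul, Complex.norm_real, Real.norm_eq_abs, abs_of_nonneg (by positivity)]
      push_cast at hxy
      calc 1 / (n + 2 : ℝ) * ‖x - y‖ ≤ 1 / (n + 2 : ℝ) * (n + 1 + 1) := by gcongr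
        _ = 1 := by field_simp; ring
    obtain ⟨g1, hg1, hg1'⟩ := ih t ht u hu x hx w hwu e1
    have h1 : kap u.1 - kap s.1 ∈ D := by
      refine hD u hu s hs w ⟨w, hwu, ?_⟩ ⟨y, hy, ?_⟩
      · simp
      · rw [mem_ball, dist_comm, dist_eq_norm]
        linarith
    refine ⟨g1 + ⟨_, AddSubgroup.subset_closure h1⟩, ?_, ?_⟩
    · rw [AddSubgroup.coe_add, hg1]; ring
    · have h3 := hφ _ h1
      rw [map_add, AddSubgroup.coe_add]
      have : φ g1 + φ ⟨_, AddSubgroup.subset_closure h1⟩ - ((g1 : ℂ) + (kap u.1 - kap s.1)) =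
        (φ g1 - g1) + (φ ⟨_, AddSubgroup.subset_closure h1⟩ - (kap u.1 - kap s.1)) := by ring
      calc _ = ‖φ g1 + φ ⟨_, AddSubgroup.subset_closure h1⟩ - ((g1 : ℂ) + (kap u.1 - kap s.1))‖ := rfl
        _ ≤ _ := by
          rw [this]
          refine (norm_add_le _ _).trans ?_
          push_cast
          linarith

/-- The address map. -/
theorem exists_address {C : Type} (T : Set (Tile C)) (hT : IsTiling T) (hF : FLC T)
    (d0 : ℝ) (hd0 : 0 ≤ d0) (hd : ∀ t ∈ T, ∀ z ∈ t.1, ‖z - kap t.1‖ ≤ d0)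
    (ε : ℝ) (hε : 0 < ε) :
    ∃ N : ℕ, 0 < N ∧ ∃ a : T → ℂ,
      (∀ P P' : T, ‖(a P - a P') - (kap P.1.1 - kap P'.1.1)‖ ≤
        ε * (‖kap P.1.1 - kap P'.1.1‖ + 2 * d0 + 1)) ∧
      (∀ P P' Q Q' : T, kap P.1.1 - kap P'.1.1 = kap Q.1.1 - kap Q'.1.1 → a P - a P' = a Q - a Q') ∧
      (∀ P P' : T, ∃ m n : ℤ, (N : ℂ) * (a P - a P') = (m : ℂ) + (n : ℂ) * Complex.I) := by
  obtain ⟨-, -, hfin⟩ := coarse T hT hF
  set D : Set ℂ := {d : ℂ | ∃ t ∈ T, ∃ s ∈ T, ∃ x : ℂ, (t.1 ∩ ball x 2).Nonempty ∧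
    (s.1 ∩ ball x 2).Nonempty ∧ d = kap t.1 - kap s.1} with hDdef
  obtain ⟨N, hN, φ, hint, hφ⟩ := exists_rounding D hfin ε hε
  have hDm : ∀ t ∈ T, ∀ s ∈ T, ∀ x : ℂ, (t.1 ∩ ball x 2).Nonempty → (s.1 ∩ ball x 2).Nonempty →
      kap t.1 - kap s.1 ∈ D := fun t ht s hs x h1 h2 => ⟨t, ht, s, hs, x, h1, h2, rfl⟩
  obtain ⟨t0, ht0, h00⟩ := hT.cover 0
  -- all differences
  have key : ∀ P P' : T, ∃ g : AddSubgroup.closure D, (g : ℂ) = kap P.1.1 - kap P'.1.1 ∧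
      ‖φ g - g‖ ≤ ε * (‖kap P.1.1 - kap P'.1.1‖ + 2 * d0 + 1) := by
    intro P P'
    obtain ⟨x, hx⟩ := (hT.polygon P.1 P.2).nonempty
    obtain ⟨y, hy⟩ := (hT.polygon P'.1 P'.2).nonempty
    obtain ⟨g, hg, hg'⟩ := chain T hT D hDm ε φ hφ ⌊‖x - y‖⌋₊ P.1 P.2 P'.1 P'.2 x hx y hy
      (Nat.lt_floor_add_one _).le
    refine ⟨g, hg, hg'.trans ?_⟩
    have h1 : (⌊‖x - y‖⌋₊ : ℝ) ≤ ‖x - y‖ := Nat.floor_le (norm_nonneg _)
    have h2 : ‖x - y‖ ≤ ‖kap P.1.1 - kap P'.1.1‖ + 2 * d0 := by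
      have e : x - y = (x - kap P.1.1) + (kap P.1.1 - kap P'.1.1) - (y - kap P'.1.1) := by ring
      rw [e]
      refine (norm_sub_le _ _).trans ?_
      have := norm_add_le (x - kap P.1.1) (kap P.1.1 - kap P'.1.1)
      linarith [hd P.1 P.2 x hx, hd P'.1 P'.2 y hy]
    nlinarith
  have hmem : ∀ P : T, kap P.1.1 - kap t0.1 ∈ AddSubgroup.closure D := by
    intro P
    obtain ⟨g, hg, -⟩ := key P ⟨t0, ht0⟩
    rw [← hg]; exact g.2
  refine ⟨N, hN, fun P => φ ⟨_, hmem P⟩, ?_, ?_, ?_⟩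
  · intro P P'
    obtain ⟨g, hg, hg'⟩ := key P P'
    have : φ ⟨_, hmem P⟩ - φ ⟨_, hmem P'⟩ = φ g := by
      rw [← map_sub]
      congr 1
      apply Subtype.ext
      rw [AddSubgroup.coe_sub, hg]; ring
    simp only [this]
    rw [← hg] at hg' ⊢
    exact hg'
  · intro P P' Q Q' h
    simp only
    rw [← map_sub, ← map_sub]
    congr 1
    apply Subtype.ext
    rw [AddSubgroup.coe_sub, AddSubgroup.coe_sub]
    simp only
    linear_combination h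
  · intro P P'
    simp only
    rw [← map_sub]
    exact hint _

/-- coarse surjectivity of the address map -/
theorem address_surj {C : Type} (T : Set (Tile C)) (hT : IsTiling T)
    (d0 : ℝ) (hd0 : 0 ≤ d0) (hd : ∀ t ∈ T, ∀ z ∈ t.1, ‖z - kap t.1‖ ≤ d0)
    (ε : ℝ) (hε : 0 < ε) (hε2 : ε ≤ 1 / 2) (a : T → ℂ)
    (ha : ∀ P P' : T, ‖(a P - a P') - (kap P.1.1 - kap P'.1.1)‖ ≤
        ε * (‖kap P.1.1 - kap P'.1.1‖ + 2 * d0 + 1)) (ℓ : ℂ) :
    ∃ P, ‖a P - ℓ‖ ≤ 5 * d0 + 3 := by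
  have main : ∀ n : ℕ, ∀ P, ‖a P - ℓ‖ ≤ n + (5 * d0 + 3) → ∃ P, ‖a P - ℓ‖ ≤ 5 * d0 + 3 := by
    intro n
    induction n with
    | zero => intro P hP; exact ⟨P, by simpa using hP⟩
    | succ n ih =>
      intro P hP
      by_cases hle : ‖a P - ℓ‖ ≤ 5 * d0 + 3
      · exact ⟨P, hle⟩
      push Not at hle
      set r : ℝ := 5 * d0 + 3 with hr
      have hrp : 0 < r := by rw [hr]; linarith
      set d : ℝ := ‖a P - ℓ‖ with hdd
      have hdp : 0 < d := by linarith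
      set w : ℂ := kap P.1.1 + ((r / d : ℝ) : ℂ) * (ℓ - a P) with hw
      obtain ⟨u, hu, hwu⟩ := hT.cover w
      refine ih ⟨u, hu⟩ ?_
      have h1 := ha ⟨u, hu⟩ P
      have h2 := hd u hu w hwu
      have h3 : ‖((r / d : ℝ) : ℂ) * (ℓ - a P)‖ = r := by
        rw [norm_mul, Complex.norm_real, Real.norm_eq_abs, abs_of_nonneg (by positivity),
          norm_sub_rev, ← hdd]
        field_simp
      have h4 : ‖kap u.1 - kap P.1.1‖ ≤ r + d0 := by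
        have e : kap u.1 - kap P.1.1 = ((r / d : ℝ) : ℂ) * (ℓ - a P) - (w - kap u.1) := by
          rw [hw]; ring
        rw [e]
        exact (norm_sub_le _ _).trans (by linarith)
      have h5 : ‖a ⟨u, hu⟩ - ℓ‖ ≤ ε * (‖kap u.1 - kap P.1.1‖ + 2 * d0 + 1) + d0 + (d - r) := by
        have e : a ⟨u, hu⟩ - ℓ = ((a ⟨u, hu⟩ - a P) - (kap u.1 - kap P.1.1)) - (w - kap u.1) +
          ((1 - r / d : ℝ) : ℂ) * (a P - ℓ) := by
          rw [hw]; push_cast; ring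
        rw [e]
        refine (norm_add_le _ _).trans ?_
        have h6 : ‖((1 - r / d : ℝ) : ℂ) * (a P - ℓ)‖ = d - r := by
          rw [norm_mul, Complex.norm_real, Real.norm_eq_abs, ← hdd, abs_of_nonneg]
          · field_simp
          · rw [sub_nonneg, div_le_one hdp]; exact hle.le
        rw [h6]
        have h7 := norm_sub_le ((a ⟨u, hu⟩ - a P) - (kap u.1 - kap P.1.1)) (w - kap u.1)
        simp only at h1
        linarith
      have h8 : ε * (‖kap u.1 - kap P.1.1‖ + 2 * d0 + 1) ≤ 1 / 2 * (r + d0 + 2 * d0 + 1) := by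
        have h9 : 0 ≤ ‖kap u.1 - kap P.1.1‖ := norm_nonneg _
        nlinarith
      push_cast at hP
      have : d - r ≤ n + 1 := by linarith
      rw [hr] at h8 ⊢
      linarith
  obtain ⟨t0, ht0, -⟩ := hT.cover 0
  refine main ⌈‖a ⟨t0, ht0⟩ - ℓ‖⌉₊ ⟨t0, ht0⟩ ?_
  have := Nat.le_ceil (‖a ⟨t0, ht0⟩ - ℓ‖)
  linarith

/-- coarse injectivity of the address map -/
theorem address_inj {C : Type} (T : Set (Tile C)) 
    (d0 : ℝ) (hd0 : 0 ≤ d0)
    (ε : ℝ) (hε : 0 < ε) (hε2 : ε ≤ 1 / 2) (a : T → ℂ)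
    (ha : ∀ P P' : T, ‖(a P - a P') - (kap P.1.1 - kap P'.1.1)‖ ≤
        ε * (‖kap P.1.1 - kap P'.1.1‖ + 2 * d0 + 1)) (r : ℝ) (P P' : T)
    (h : ‖a P - a P'‖ ≤ r) : ‖kap P.1.1 - kap P'.1.1‖ ≤ 2 * (r + 2 * d0 + 1) := by
  have h1 := ha P P'
  have h2 : ‖kap P.1.1 - kap P'.1.1‖ ≤ ‖a P - a P'‖ +
      ‖(a P - a P') - (kap P.1.1 - kap P'.1.1)‖ := by
    have e : kap P.1.1 - kap P'.1.1 = (a P - a P') - ((a P - a P') - (kap P.1.1 - kap P'.1.1)) := by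
      ring
    calc _ = ‖(a P - a P') - ((a P - a P') - (kap P.1.1 - kap P'.1.1))‖ := by rw [← e]
      _ ≤ _ := norm_sub_le _ _
  have h3 : 0 ≤ ‖kap P.1.1 - kap P'.1.1‖ := norm_nonneg _
  nlinarith

end H994.Mld
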