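import Mathlib

/-!
# Tilings of the plane, mutual local derivability, the induced graph and its Laplacian

Definitions for the problem `MP_885f6d_mp`.  The plane `ℝ²` is the real vector space `ℂ` with its
Euclidean norm.
-/

open Set Metric

namespace H994.Mld

/-- A polygon: a nonempty compact set with dense interior which is a finite intersection of
closed half-planes. -/
structure IsPolygon (P : Set ℂ) : Prop where
  nonempty : P.Nonempty
  compact : IsCompact P
  dense_interior : P ⊆ closure (interior P)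
  halfPlanes : ∃ S : Finset (ℝ × ℝ × ℝ), (∀ s ∈ S, (s.1, s.2.1) ≠ ((0 : ℝ), (0 : ℝ))) ∧
    P = {z : ℂ | ∀ s ∈ S, s.1 * z.re + s.2.1 * z.im ≤ s.2.2}

/-- A coloured tile: a subset of the plane together with a colour. -/
abbrev Tile (C : Type) : Type := Set ℂ × C

/-- The translate `v + t` of a coloured tile. -/
def Tile.tr {C : Type} (v : ℂ) (t : Tile C) : Tile C := ((fun z => v + z) '' t.1, t.2)

/-- A polygonal tiling with colours in `C`: a countable set of coloured polygons that cover the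
plane and have pairwise disjoint interiors. -/
structure IsTiling {C : Type} (T : Set (Tile C)) : Prop where
  countable : T.Countable
  polygon : ∀ t ∈ T, IsPolygon t.1
  cover : ∀ z : ℂ, ∃ t ∈ T, z ∈ t.1
  disj : ∀ t ∈ T, ∀ s ∈ T, t ≠ s → Disjoint (interior t.1) (interior s.1)

/-- `(v + T) ⊓ K`: the tiles of the translated tiling `v + T` that meet `K`. -/
def cap {C : Type} (v : ℂ) (T : Set (Tile C)) (K : Set ℂ) : Set (Tile C) :=
  {t | t ∈ Tile.tr v '' T ∧ (t.1 ∩ K).Nonempty}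

/-- `T'` is locally derivable from `T`. -/
def LocallyDerivable {C C' : Type} (T' : Set (Tile C')) (T : Set (Tile C)) : Prop :=
  ∃ R : ℝ, 0 < R ∧ ∀ x y : ℂ, cap (-x) T (ball 0 R) = cap (-y) T (ball 0 R) →
    cap (-x) T' {0} = cap (-y) T' {0}

/-- Mutual local derivability. -/
def MLD {C C' : Type} (T : Set (Tile C)) (T' : Set (Tile C')) : Prop :=
  LocallyDerivable T' T ∧ LocallyDerivable T T'

/-- Finite local complexity: for every `R > 0` the patches `T ⊓ B_R(x)`, `x ∈ ℝ²`, are finite and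
there are only finitely many of them up to translation. -/
def FLC {C : Type} (T : Set (Tile C)) : Prop :=
  ∀ R : ℝ, 0 < R → ∃ F : Set (Set (Tile C)), F.Finite ∧ (∀ p ∈ F, p.Finite) ∧
    ∀ x : ℂ, ∃ v : ℂ, cap v T (ball (v + x) R) ∈ F

/-- `e` is an edge of the polygon `P`: the intersection of `P` with a supporting line which
contains more than one point. -/
def IsEdge (e P : Set ℂ) : Prop :=
  e.Nontrivial ∧ ∃ a b c : ℝ, (a, b) ≠ ((0 : ℝ), (0 : ℝ)) ∧
    (∀ z ∈ P, a * z.re + b * z.im ≤ c) ∧ e = {z | z ∈ P ∧ a * z.re + b * z.im = c}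

/-- Adjacency in the induced graph `Γ_T`: two different tiles share at least one edge. -/
def Adj {C : Type} (t s : Tile C) : Prop := t ≠ s ∧ ∃ e, IsEdge e t.1 ∧ IsEdge e s.1

/-- The Laplacian of `Γ_T` has a locally-supported eigenfunction. -/
def HasLocallySupportedEigenfunction {C : Type} (T : Set (Tile C)) : Prop :=
  ∃ ψ : T → ℂ, ψ ≠ 0 ∧ (Function.support ψ).Finite ∧ ∃ E : ℝ, ∀ v : T,
    ∑ᶠ (u : T) (_ : Adj u.1 v.1), (ψ v - ψ u) = (E : ℂ) * ψ v

/-! ### Auxiliary definitions -/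

/-- The coordinatewise infimum of a set: the reference point of a tile. -/
noncomputable def kap (P : Set ℂ) : ℂ := ⟨sInf (Complex.re '' P), sInf (Complex.im '' P)⟩

/-- The triangles of the deformed lattice triangulation with vertices `h (i, j)`. -/
def tri (h : ℤ × ℤ → ℂ) (k : ℤ × ℤ × Bool) : Set ℂ :=
  convexHull ℝ {h (k.1, k.2.1), h (k.1 + 1, k.2.1 + 1),
    if k.2.2 then h (k.1, k.2.1 + 1) else h (k.1 + 1, k.2.1)}

/-- The triangles of the standard lattice triangulation. -/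
def std (k : ℤ × ℤ × Bool) : Set ℂ := tri (fun p => ⟨(p.1 : ℝ), (p.2 : ℝ)⟩) k

/-- Adjacency of the triangles of the lattice triangulation: the honeycomb lattice. -/
def HexAdj (k l : ℤ × ℤ × Bool) : Prop :=
  (k.2.2 = false ∧ l.2.2 = true ∧
    ((l.1 = k.1 ∧ l.2.1 = k.2.1) ∨ (l.1 = k.1 ∧ l.2.1 = k.2.1 - 1) ∨
      (l.1 = k.1 + 1 ∧ l.2.1 = k.2.1))) ∨
  (l.2.2 = false ∧ k.2.2 = true ∧
    ((k.1 = l.1 ∧ k.2.1 = l.2.1) ∨ (k.1 = l.1 ∧ k.2.1 = l.2.1 - 1) ∨
      (k.1 = l.1 + 1 ∧ k.2.1 = l.2.1)))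

/-- The weight of the tile with address `a P` at the point `ℓ`. -/
noncomputable def wt {ι : Type} (a : ι → ℂ) (ρ : ℝ) (ℓ : ℂ) (P : ι) : ℝ :=
  max 0 (2 * ρ - ‖ℓ - a P‖)

/-- The averaged inverse of the address map `a`. -/
noncomputable def KK {ι : Type} (κ a : ι → ℂ) (ρ : ℝ) (ℓ : ℂ) : ℂ :=
  ℓ + (∑ᶠ P, (wt a ρ ℓ P : ℂ) * (κ P - a P)) / ((∑ᶠ P, wt a ρ ℓ P : ℝ) : ℂ)

end H994.Mld
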