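import Pool.Agent.H994.Mld.Defs

open Set Metric

namespace H994.Mld

theorem wt_nonneg {ι : Type} (a : ι → ℂ) (ρ : ℝ) (ℓ : ℂ) (P : ι) : 0 ≤ wt a ρ ℓ P :=
  le_max_left _ _

theorem wt_zero {ι : Type} (a : ι → ℂ) (ρ : ℝ) (ℓ : ℂ) (P : ι) (h : 2 * ρ ≤ ‖ℓ - a P‖) :
    wt a ρ ℓ P = 0 := by
  unfold wt
  exact max_eq_left (by linarith)

theorem wt_lip {ι : Type} (a : ι → ℂ) (ρ : ℝ) (ℓ ℓ' : ℂ) (P : ι) :
    |wt a ρ ℓ P - wt a ρ ℓ' P| ≤ ‖ℓ - ℓ'‖ := by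
  unfold wt
  rw [max_comm 0, max_comm 0]
  refine (abs_max_sub_max_le_abs _ _ _).trans ?_
  have : 2 * ρ - ‖ℓ - a P‖ - (2 * ρ - ‖ℓ' - a P‖) = ‖ℓ' - a P‖ - ‖ℓ - a P‖ := by ring
  rw [this]
  refine (abs_norm_sub_norm_le _ _).trans ?_
  rw [sub_sub_sub_cancel_right, norm_sub_rev]

/-- the two finsums as finite sums -/
theorem KK_eq {ι : Type} (κ a : ι → ℂ) (ρ : ℝ) (ℓ : ℂ) (s : Finset ι)
    (hs : ∀ P, P ∉ s → wt a ρ ℓ P = 0) (c : ℂ) (hS : (∑ P ∈ s, wt a ρ ℓ P) ≠ 0) :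
    KK κ a ρ ℓ = ℓ + c + (∑ P ∈ s, (wt a ρ ℓ P : ℂ) * ((κ P - a P) - c)) /
      ((∑ P ∈ s, wt a ρ ℓ P : ℝ) : ℂ) := by
  unfold KK
  have h1 : ∑ᶠ P, wt a ρ ℓ P = ∑ P ∈ s, wt a ρ ℓ P := by
    apply finsum_eq_sum_of_support_subset
    intro P hP
    by_contra h
    exact hP (hs P (by simpa using h))
  have h2 : ∑ᶠ P, (wt a ρ ℓ P : ℂ) * (κ P - a P) = ∑ P ∈ s, (wt a ρ ℓ P : ℂ) * (κ P - a P) := by
    apply finsum_eq_sum_of_support_subset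
    intro P hP
    by_contra h
    apply hP
    beta_reduce
    rw [hs P (by simpa using h)]
    simp
  rw [h1, h2]
  have hS' : ((∑ P ∈ s, wt a ρ ℓ P : ℝ) : ℂ) ≠ 0 := by exact_mod_cast hS
  have h3 : ∑ P ∈ s, (wt a ρ ℓ P : ℂ) * ((κ P - a P) - c) =
      ∑ P ∈ s, (wt a ρ ℓ P : ℂ) * (κ P - a P) - ((∑ P ∈ s, wt a ρ ℓ P : ℝ) : ℂ) * c := by
    push_cast
    rw [Finset.sum_mul, ← Finset.sum_sub_distrib]
    apply Finset.sum_congr rfl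
    intro P _
    ring
  rw [h3]
  field_simp
  ring

theorem KK_lipschitz {ι : Type} (κ a : ι → ℂ) (ρ η : ℝ) (M : ℕ) (hρ : 1 ≤ ρ) (hη : 0 ≤ η)
    (P1 : ∀ ℓ : ℂ, ∃ P, ‖a P - ℓ‖ ≤ ρ)
    (P2 : ∀ P P', ‖a P - a P'‖ ≤ 6 * ρ → ‖(κ P - a P) - (κ P' - a P')‖ ≤ η)
    (P3 : ∀ ℓ : ℂ, {P | ‖a P - ℓ‖ ≤ 3 * ρ}.Finite ∧ {P | ‖a P - ℓ‖ ≤ 3 * ρ}.ncard ≤ M)
    (ℓ ℓ' : ℂ) (h : ‖ℓ - ℓ'‖ ≤ 1) :
    ‖KK κ a ρ ℓ - KK κ a ρ ℓ' - (ℓ - ℓ')‖ ≤ 4 * M * η * ‖ℓ - ℓ'‖ := by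
  classical
  obtain ⟨hfin, hcard⟩ := P3 ℓ
  set s := hfin.toFinset with hs
  have hmem : ∀ P, P ∈ s ↔ ‖a P - ℓ‖ ≤ 3 * ρ := by
    intro P; rw [hs, Set.Finite.mem_toFinset]; rfl
  have hscard : (s.card : ℝ) ≤ M := by
    rw [Set.ncard_eq_toFinset_card _ hfin] at hcard
    exact_mod_cast hcard
  obtain ⟨P0, hP0⟩ := P1 ℓ
  obtain ⟨P0', hP0'⟩ := P1 ℓ'
  have hP0s : P0 ∈ s := (hmem P0).2 (by linarith)
  have hP0s' : P0' ∈ s := (hmem P0').2 (by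
    have : a P0' - ℓ = (a P0' - ℓ') - (ℓ - ℓ') := by ring
    rw [this]
    refine (norm_sub_le _ _).trans ?_
    linarith)
  have hz : ∀ P, P ∉ s → wt a ρ ℓ P = 0 := by
    intro P hP
    apply wt_zero
    rw [hmem, not_le, norm_sub_rev] at hP
    linarith
  have hz' : ∀ P, P ∉ s → wt a ρ ℓ' P = 0 := by
    intro P hP
    apply wt_zero
    rw [hmem, not_le, norm_sub_rev] at hP
    have h1 : ‖ℓ - a P‖ ≤ ‖ℓ - ℓ'‖ + ‖ℓ' - a P‖ := norm_sub_le_norm_sub_add_norm_sub _ _ _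
    linarith
  set S := ∑ P ∈ s, wt a ρ ℓ P with hSdef
  set S' := ∑ P ∈ s, wt a ρ ℓ' P with hSdef'
  have hS1 : 1 ≤ S := by
    have h1 : wt a ρ ℓ P0 ≤ S := Finset.single_le_sum (fun P _ => wt_nonneg a ρ ℓ P) hP0s
    have h2 : ρ ≤ wt a ρ ℓ P0 := by
      unfold wt
      rw [norm_sub_rev] at hP0
      exact le_trans (by linarith) (le_max_right _ _)
    linarith
  have hS1' : 1 ≤ S' := by
    have h1 : wt a ρ ℓ' P0' ≤ S' := Finset.single_le_sum (fun P _ => wt_nonneg a ρ ℓ' P) hP0s'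
    have h2 : ρ ≤ wt a ρ ℓ' P0' := by
      unfold wt
      rw [norm_sub_rev] at hP0'
      exact le_trans (by linarith) (le_max_right _ _)
    linarith
  set c := κ P0 - a P0 with hc
  set u : ι → ℂ := fun P => (κ P - a P) - c with hu
  have hue : ∀ P ∈ s, ‖u P‖ ≤ η := by
    intro P hP
    apply P2
    rw [hmem] at hP
    have : a P - a P0 = (a P - ℓ) - (a P0 - ℓ) := by ring
    rw [this]
    refine (norm_sub_le _ _).trans ?_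
    linarith
  rw [KK_eq κ a ρ ℓ s hz c (by linarith), KK_eq κ a ρ ℓ' s hz' c (by linarith)]
  rw [← hSdef, ← hSdef']
  set A := ∑ P ∈ s, (wt a ρ ℓ P : ℂ) * u P with hA
  set A' := ∑ P ∈ s, (wt a ρ ℓ' P : ℂ) * u P with hA'
  change ‖ℓ + c + A / (S : ℂ) - (ℓ' + c + A' / (S' : ℂ)) - (ℓ - ℓ')‖ ≤ _
  have hSC : (S : ℂ) ≠ 0 := by
    have : S ≠ 0 := by linarith
    exact_mod_cast this
  have hSC' : (S' : ℂ) ≠ 0 := by
    have : S' ≠ 0 := by linarith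
    exact_mod_cast this
  have e1 : ℓ + c + A / (S : ℂ) - (ℓ' + c + A' / (S' : ℂ)) - (ℓ - ℓ') =
      (A - A') / S + A' * ((S' - S : ℝ) : ℂ) / (S * S') := by
    push_cast
    field_simp
    ring
  rw [e1]
  set δ := ‖ℓ - ℓ'‖ with hδ
  have hδ0 : 0 ≤ δ := norm_nonneg _
  have b1 : ‖A - A'‖ ≤ M * η * δ := by
    have : A - A' = ∑ P ∈ s, ((wt a ρ ℓ P - wt a ρ ℓ' P : ℝ) : ℂ) * u P := by
      rw [hA, hA', ← Finset.sum_sub_distrib]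
      apply Finset.sum_congr rfl
      intro P _
      push_cast; ring
    rw [this]
    calc _ ≤ ∑ P ∈ s, ‖((wt a ρ ℓ P - wt a ρ ℓ' P : ℝ) : ℂ) * u P‖ := norm_sum_le _ _
      _ ≤ ∑ P ∈ s, δ * η := by
          apply Finset.sum_le_sum
          intro P hP
          rw [norm_mul, Complex.norm_real, Real.norm_eq_abs]
          exact mul_le_mul (wt_lip a ρ ℓ ℓ' P) (hue P hP) (norm_nonneg _) hδ0
      _ = s.card * (δ * η) := by rw [Finset.sum_const, nsmul_eq_mul]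
      _ ≤ M * (δ * η) := by gcongr
      _ = M * η * δ := by ring
  have b2 : ‖A'‖ ≤ η * S' := by
    rw [hA']
    calc _ ≤ ∑ P ∈ s, ‖(wt a ρ ℓ' P : ℂ) * u P‖ := norm_sum_le _ _
      _ ≤ ∑ P ∈ s, wt a ρ ℓ' P * η := by
          apply Finset.sum_le_sum
          intro P hP
          rw [norm_mul, Complex.norm_real, Real.norm_eq_abs, abs_of_nonneg (wt_nonneg _ _ _ _)]
          exact mul_le_mul_of_nonneg_left (hue P hP) (wt_nonneg _ _ _ _)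
      _ = η * S' := by rw [← Finset.sum_mul, mul_comm]
  have b3 : |S' - S| ≤ M * δ := by
    have : S' - S = ∑ P ∈ s, (wt a ρ ℓ' P - wt a ρ ℓ P) := by
      rw [hSdef, hSdef', ← Finset.sum_sub_distrib]
    rw [this]
    calc _ ≤ ∑ P ∈ s, |wt a ρ ℓ' P - wt a ρ ℓ P| := Finset.abs_sum_le_sum_abs _ _
      _ ≤ ∑ P ∈ s, δ := by
          apply Finset.sum_le_sum
          intro P _
          rw [hδ, norm_sub_rev]
          exact wt_lip a ρ ℓ' ℓ P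
      _ = s.card * δ := by rw [Finset.sum_const, nsmul_eq_mul]
      _ ≤ M * δ := by gcongr
  have hM0 : (0 : ℝ) ≤ M := Nat.cast_nonneg M
  calc ‖(A - A') / S + A' * ((S' - S : ℝ) : ℂ) / (S * S')‖
      ≤ ‖(A - A') / S‖ + ‖A' * ((S' - S : ℝ) : ℂ) / (S * S')‖ := norm_add_le _ _
    _ = ‖A - A'‖ / S + ‖A'‖ * |S' - S| / (S * S') := by
        rw [norm_div, norm_div, norm_mul, norm_mul, Complex.norm_real, Complex.norm_real,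
          Complex.norm_real, Real.norm_eq_abs, Real.norm_eq_abs, Real.norm_eq_abs,
          abs_of_nonneg (by linarith : 0 ≤ S), abs_of_nonneg (by linarith : 0 ≤ S')]
    _ ≤ (M * η * δ) / 1 + (η * S') * (M * δ) / (1 * S') := by
        gcongr
    _ = 2 * M * η * δ := by
        have : S' ≠ 0 := by linarith
        field_simp
        ring
    _ ≤ 4 * M * η * δ := by
        have : 0 ≤ M * η * δ := by positivity
        nlinarith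

theorem KK_near {ι : Type} (κ a : ι → ℂ) (ρ η : ℝ) (hρ : 1 ≤ ρ) (hη : 0 ≤ η)
    (P1 : ∀ ℓ : ℂ, ∃ P, ‖a P - ℓ‖ ≤ ρ)
    (P2 : ∀ P P', ‖a P - a P'‖ ≤ 6 * ρ → ‖(κ P - a P) - (κ P' - a P')‖ ≤ η)
    (P3 : ∀ ℓ : ℂ, {P | ‖a P - ℓ‖ ≤ 3 * ρ}.Finite)
    (ℓ : ℂ) (P : ι) (h : ‖a P - ℓ‖ ≤ 3 * ρ) :
    ‖KK κ a ρ ℓ - κ P‖ ≤ η + 3 * ρ := by
  classical
  have hfin := P3 ℓ
  set s := hfin.toFinset with hs
  have hmem : ∀ P, P ∈ s ↔ ‖a P - ℓ‖ ≤ 3 * ρ := by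
    intro P; rw [hs, Set.Finite.mem_toFinset]; rfl
  obtain ⟨P0, hP0⟩ := P1 ℓ
  have hP0s : P0 ∈ s := (hmem P0).2 (by linarith)
  have hz : ∀ P, P ∉ s → wt a ρ ℓ P = 0 := by
    intro P hP
    apply wt_zero
    rw [hmem, not_le, norm_sub_rev] at hP
    linarith
  set S := ∑ P ∈ s, wt a ρ ℓ P with hSdef
  have hS1 : 1 ≤ S := by
    have h1 : wt a ρ ℓ P0 ≤ S := Finset.single_le_sum (fun P _ => wt_nonneg a ρ ℓ P) hP0s
    have h2 : ρ ≤ wt a ρ ℓ P0 := by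
      unfold wt
      rw [norm_sub_rev] at hP0
      exact le_trans (by linarith) (le_max_right _ _)
    linarith
  rw [KK_eq κ a ρ ℓ s hz (κ P - a P) (by linarith), ← hSdef]
  have e1 : ℓ + (κ P - a P) + (∑ x ∈ s, (wt a ρ ℓ x : ℂ) * (κ x - a x - (κ P - a P))) / (S : ℂ) - κ P =
      (∑ x ∈ s, (wt a ρ ℓ x : ℂ) * (κ x - a x - (κ P - a P))) / (S : ℂ) - (a P - ℓ) := by ring
  rw [e1]
  have b2 : ‖∑ x ∈ s, (wt a ρ ℓ x : ℂ) * (κ x - a x - (κ P - a P))‖ ≤ η * S := by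
    calc _ ≤ ∑ x ∈ s, ‖(wt a ρ ℓ x : ℂ) * (κ x - a x - (κ P - a P))‖ := norm_sum_le _ _
      _ ≤ ∑ x ∈ s, wt a ρ ℓ x * η := by
          apply Finset.sum_le_sum
          intro x hx
          rw [norm_mul, Complex.norm_real, Real.norm_eq_abs, abs_of_nonneg (wt_nonneg _ _ _ _)]
          apply mul_le_mul_of_nonneg_left _ (wt_nonneg _ _ _ _)
          apply P2
          rw [hmem] at hx
          have : a x - a P = (a x - ℓ) - (a P - ℓ) := by ring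
          rw [this]
          refine (norm_sub_le _ _).trans ?_
          linarith
      _ = η * S := by rw [← Finset.sum_mul, mul_comm]
  calc _ ≤ ‖(∑ x ∈ s, (wt a ρ ℓ x : ℂ) * (κ x - a x - (κ P - a P))) / (S : ℂ)‖ + ‖a P - ℓ‖ :=
        norm_sub_le _ _
    _ ≤ η + 3 * ρ := by
        rw [norm_div, Complex.norm_real, Real.norm_eq_abs, abs_of_nonneg (by linarith : 0 ≤ S)]
        have : ‖∑ x ∈ s, (wt a ρ ℓ x : ℂ) * (κ x - a x - (κ P - a P))‖ / S ≤ η := by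
          rw [div_le_iff₀ (by linarith)]
          exact b2
        linarith

theorem fin_sub {ι : Type} {E : Type} [AddCommMonoid E] (p : ι → Prop) (f : ι → E)
    (h : ∀ P, ¬ p P → f P = 0) : ∑ᶠ P, f P = ∑ᶠ P : {P // p P}, f P.1 := by
  have h1 : ∑ᶠ P : {P // p P}, f P.1 = ∑ᶠ P ∈ {P | p P}, f P :=
    finsum_set_coe_eq_finsum_mem {P | p P}
  rw [h1, finsum_mem_def]
  apply finsum_congr
  intro P
  by_cases hP : P ∈ {P | p P}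
  · rw [indicator_of_mem hP]
  · rw [indicator_of_notMem hP]
    exact h P hP

theorem KK_shift {ι : Type} (κ a : ι → ℂ) (ρ : ℝ) (ℓ s v : ℂ)
    (hS : {P | ‖ℓ - a P‖ < 2 * ρ}.Finite) (hne : {P | ‖ℓ - a P‖ < 2 * ρ}.Nonempty)
    (e : {P // ‖ℓ - a P‖ < 2 * ρ} ≃ {P // ‖ℓ + s - a P‖ < 2 * ρ})
    (h1 : ∀ P, a (e P) = a P + s) (h2 : ∀ P, κ (e P) = κ P + v) :
    KK κ a ρ (ℓ + s) = KK κ a ρ ℓ + v := by
  classical
  have hw : ∀ P : {P // ‖ℓ - a P‖ < 2 * ρ}, wt a ρ (ℓ + s) (e P).1 = wt a ρ ℓ P.1 := by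
    intro P
    unfold wt
    rw [h1]
    congr 3
    ring
  have hz : ∀ P, ¬ ‖ℓ - a P‖ < 2 * ρ → wt a ρ ℓ P = 0 := fun P hP => wt_zero _ _ _ _ (not_lt.mp hP)
  have hz' : ∀ P, ¬ ‖ℓ + s - a P‖ < 2 * ρ → wt a ρ (ℓ + s) P = 0 :=
    fun P hP => wt_zero _ _ _ _ (not_lt.mp hP)
  have hfin : Finite {P // ‖ℓ - a P‖ < 2 * ρ} := hS
  have : Fintype {P // ‖ℓ - a P‖ < 2 * ρ} := Fintype.ofFinite _
  have s1 : ∑ᶠ P, wt a ρ (ℓ + s) P = ∑ P : {P // ‖ℓ - a P‖ < 2 * ρ}, wt a ρ ℓ P.1 := by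
    rw [fin_sub (fun P => ‖ℓ + s - a P‖ < 2 * ρ) _ hz', ← finsum_comp_equiv e,
      finsum_eq_sum_of_fintype]
    exact Finset.sum_congr rfl fun P _ => hw P
  have s2 : ∑ᶠ P, wt a ρ ℓ P = ∑ P : {P // ‖ℓ - a P‖ < 2 * ρ}, wt a ρ ℓ P.1 := by
    rw [fin_sub (fun P => ‖ℓ - a P‖ < 2 * ρ) _ hz, finsum_eq_sum_of_fintype]
  have t1 : ∑ᶠ P, (wt a ρ (ℓ + s) P : ℂ) * (κ P - a P) =
      ∑ P : {P // ‖ℓ - a P‖ < 2 * ρ}, (wt a ρ ℓ P.1 : ℂ) * (κ P.1 - a P.1 + (v - s)) := by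
    rw [fin_sub (fun P => ‖ℓ + s - a P‖ < 2 * ρ) _ (fun P hP => by rw [hz' P hP]; simp),
      ← finsum_comp_equiv e, finsum_eq_sum_of_fintype]
    apply Finset.sum_congr rfl
    intro P _
    rw [hw, h1, h2]
    ring
  have t2 : ∑ᶠ P, (wt a ρ ℓ P : ℂ) * (κ P - a P) =
      ∑ P : {P // ‖ℓ - a P‖ < 2 * ρ}, (wt a ρ ℓ P.1 : ℂ) * (κ P.1 - a P.1) := by
    rw [fin_sub (fun P => ‖ℓ - a P‖ < 2 * ρ) _ (fun P hP => by rw [hz P hP]; simp),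
      finsum_eq_sum_of_fintype]
  unfold KK
  rw [s1, s2, t1, t2]
  have hSne : (∑ P : {P // ‖ℓ - a P‖ < 2 * ρ}, wt a ρ ℓ P.1) ≠ 0 := by
    obtain ⟨P, hP⟩ := hne
    have hpos : 0 < ∑ P : {P // ‖ℓ - a P‖ < 2 * ρ}, wt a ρ ℓ P.1 := by
      apply Finset.sum_pos
      · intro P _
        have := P.2
        unfold wt
        exact lt_of_lt_of_le (by linarith) (le_max_right _ _)
      · exact ⟨⟨P, hP⟩, Finset.mem_univ _⟩
    exact hpos.ne'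
  have hSC : ((∑ P : {P // ‖ℓ - a P‖ < 2 * ρ}, wt a ρ ℓ P.1 : ℝ) : ℂ) ≠ 0 := by
    exact_mod_cast hSne
  have e3 : ∑ P : {P // ‖ℓ - a P‖ < 2 * ρ}, (wt a ρ ℓ P.1 : ℂ) * (κ P.1 - a P.1 + (v - s)) =
      ∑ P : {P // ‖ℓ - a P‖ < 2 * ρ}, (wt a ρ ℓ P.1 : ℂ) * (κ P.1 - a P.1) +
      ((∑ P : {P // ‖ℓ - a P‖ < 2 * ρ}, wt a ρ ℓ P.1 : ℝ) : ℂ) * (v - s) := by
    push_cast
    rw [Finset.sum_mul, ← Finset.sum_add_distrib]
    apply Finset.sum_congr rfl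
    intro P _
    ring
  rw [e3]
  field_simp
  ring

end H994.Mld
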