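import Pool.Agent.H994.Mld.Family
import Pool.Agent.H994.Mld.K
import Pool.Agent.H994.Mld.Address

open Set Metric

namespace H994.Mld

variable {C : Type}

theorem tr_tr (v w : ℂ) (t : Tile C) : Tile.tr v (Tile.tr w t) = Tile.tr (v + w) t := by
  unfold Tile.tr
  rw [Prod.mk.injEq]
  refine ⟨?_, rfl⟩
  simp only
  rw [Set.image_image]
  congr 1
  funext z; ring

theorem tr_zero (t : Tile C) : Tile.tr 0 t = t := by
  unfold Tile.tr
  simp

theorem tr_injective2 (v : ℂ) : Function.Injective (Tile.tr v : Tile C → Tile C) := by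
  intro t s h
  have := congrArg (Tile.tr (-v)) h
  rwa [tr_tr, tr_tr, neg_add_cancel, tr_zero, tr_zero] at this

theorem mem_tr {v z : ℂ} {t : Tile C} : z ∈ (Tile.tr v t).1 ↔ z - v ∈ t.1 := by
  unfold Tile.tr
  simp only [Set.mem_image]
  constructor
  · rintro ⟨w, hw, rfl⟩
    rwa [add_sub_cancel_left]
  · intro h
    exact ⟨_, h, by ring⟩

theorem mem_cap_zero {T : Set (Tile C)} {x : ℂ} {t : Tile C} :
    t ∈ cap (-x) T {0} ↔ ∃ s ∈ T, x ∈ s.1 ∧ t = Tile.tr (-x) s := by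
  unfold cap
  simp only [mem_setOf_eq, Set.mem_image]
  constructor
  · rintro ⟨⟨s, hs, rfl⟩, z, hz, hz0⟩
    rw [mem_singleton_iff] at hz0
    subst hz0
    rw [mem_tr] at hz
    exact ⟨s, hs, by simpa using hz, rfl⟩
  · rintro ⟨s, hs, hx, rfl⟩
    exact ⟨⟨s, hs, rfl⟩, 0, mem_tr.2 (by simpa using hx), rfl⟩

theorem mem_cap_ball {T : Set (Tile C)} {x : ℂ} {R : ℝ} {t : Tile C} :
    t ∈ cap (-x) T (ball 0 R) ↔ ∃ s ∈ T, (∃ z ∈ s.1, ‖z - x‖ < R) ∧ t = Tile.tr (-x) s := by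
  unfold cap
  simp only [mem_setOf_eq, Set.mem_image]
  constructor
  · rintro ⟨⟨s, hs, rfl⟩, z, hz, hz0⟩
    rw [mem_ball, dist_zero_right] at hz0
    rw [mem_tr] at hz
    refine ⟨s, hs, ⟨z - -x, hz, ?_⟩, rfl⟩
    rwa [sub_neg_eq_add, add_sub_cancel_right]
  · rintro ⟨s, hs, ⟨z, hz, hzx⟩, rfl⟩
    refine ⟨⟨s, hs, rfl⟩, z - x, mem_tr.2 (by simpa using hz), ?_⟩
    rwa [mem_ball, dist_zero_right]

theorem patch_transfer {T : Set (Tile C)} {x y : ℂ} {R : ℝ}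
    (hxy : cap (-x) T (ball 0 R) = cap (-y) T (ball 0 R)) (s : Tile C) (hs : s ∈ T)
    (hm : ∃ z ∈ s.1, ‖z - x‖ < R) : Tile.tr (y - x) s ∈ T := by
  have h1 : Tile.tr (-x) s ∈ cap (-x) T (ball 0 R) := mem_cap_ball.2 ⟨s, hs, hm, rfl⟩
  rw [hxy, mem_cap_ball] at h1
  obtain ⟨s', hs', -, h2⟩ := h1
  have h3 : Tile.tr (y - x) s = s' := by
    have : Tile.tr (y - x) s = Tile.tr y (Tile.tr (-x) s) := by rw [tr_tr, sub_eq_add_neg]
    rw [this, h2, tr_tr, add_neg_cancel, tr_zero]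
  rw [h3]; exact hs'

theorem kap_near {P : Set ℂ} {c : ℂ} {r : ℝ} (hne : P.Nonempty)
    (h : ∀ z ∈ P, ‖z - c‖ ≤ r) : ‖kap P - c‖ ≤ 2 * r := by
  obtain ⟨z0, hz0⟩ := hne
  have hre : ∀ z ∈ P, |z.re - c.re| ≤ r := fun z hz => by simpa using (re_im_le (h z hz)).1
  have him : ∀ z ∈ P, |z.im - c.im| ≤ r := fun z hz => by simpa using (re_im_le (h z hz)).2
  have h1 : |(kap P - c).re| ≤ r := by
    rw [Complex.sub_re, abs_le]
    have hb : BddBelow (Complex.re '' P) := by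
      refine ⟨c.re - r, ?_⟩
      rintro _ ⟨z, hz, rfl⟩
      have := abs_le.1 (hre z hz); linarith
    constructor
    · have : c.re - r ≤ (kap P).re := by
        refine le_csInf ⟨_, z0, hz0, rfl⟩ ?_
        rintro _ ⟨z, hz, rfl⟩
        have := abs_le.1 (hre z hz); linarith
      linarith
    · have : (kap P).re ≤ z0.re := csInf_le hb ⟨z0, hz0, rfl⟩
      have := abs_le.1 (hre z0 hz0); linarith
  have h2 : |(kap P - c).im| ≤ r := by
    rw [Complex.sub_im, abs_le]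
    have hb : BddBelow (Complex.im '' P) := by
      refine ⟨c.im - r, ?_⟩
      rintro _ ⟨z, hz, rfl⟩
      have := abs_le.1 (him z hz); linarith
    constructor
    · have : c.im - r ≤ (kap P).im := by
        refine le_csInf ⟨_, z0, hz0, rfl⟩ ?_
        rintro _ ⟨z, hz, rfl⟩
        have := abs_le.1 (him z hz); linarith
      linarith
    · have : (kap P).im ≤ z0.im := csInf_le hb ⟨z0, hz0, rfl⟩
      have := abs_le.1 (him z0 hz0); linarith
  have := Complex.norm_le_abs_re_add_abs_im (kap P - c)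
  linarith

/-- The data from which the new tiling is built. -/
structure Data (T : Set (Tile C)) where
  d0 : ℝ
  hd0 : 0 ≤ d0
  hd : ∀ t ∈ T, ∀ z ∈ t.1, ‖z - kap t.1‖ ≤ d0
  N : ℕ
  hN : 0 < N
  a : T → ℂ
  ρ : ℝ
  hρ : 1 ≤ ρ
  r2 : ℝ
  hr2 : 0 ≤ r2
  η : ℝ
  hη : 0 ≤ η
  hη1 : η ≤ 1
  M : ℕ
  a1 : ∀ ℓ : ℂ, ∃ P, ‖a P - ℓ‖ ≤ ρ
  a2 : ∀ P P' : T, ‖a P - a P'‖ ≤ 6 * ρ → ‖kap P.1.1 - kap P'.1.1‖ ≤ r2
  a3 : ∀ P P' : T, ‖a P - a P'‖ ≤ 6 * ρ → ‖(kap P.1.1 - a P) - (kap P'.1.1 - a P')‖ ≤ η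
  a4 : ∀ P P' Q Q' : T, kap P.1.1 - kap P'.1.1 = kap Q.1.1 - kap Q'.1.1 → a P - a P' = a Q - a Q'
  a5 : ∀ P P' : T, ∃ m n : ℤ, (N : ℂ) * (a P - a P') = (m : ℂ) + (n : ℂ) * Complex.I
  a6 : ∀ ℓ : ℂ, {P | ‖a P - ℓ‖ ≤ 3 * ρ}.Finite ∧ {P | ‖a P - ℓ‖ ≤ 3 * ρ}.ncard ≤ M
  a7 : 4 * (M : ℝ) * η ≤ 1 / 1000

theorem exists_data (T : Set (Tile C)) (hT : IsTiling T) (hF : FLC T) : Nonempty (Data T) := by
  obtain ⟨⟨d0, hd0, hd⟩, hcard, -⟩ := coarse T hT hF
  set ρ : ℝ := 5 * d0 + 3 with hρ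
  set r2 : ℝ := 2 * (6 * ρ + 2 * d0 + 1) with hr2
  have hρ1 : 1 ≤ ρ := by rw [hρ]; linarith
  have hr20 : 0 ≤ r2 := by rw [hr2]; linarith
  obtain ⟨M, hM⟩ := hcard r2
  set K : ℝ := 4000 * (M + 1) * (r2 + 2 * d0 + 1) with hK
  have hKp : 4000 ≤ K := by
    rw [hK]
    have h1 : (1 : ℝ) ≤ M + 1 := by linarith [Nat.cast_nonneg (α := ℝ) M]
    have h2 : (1 : ℝ) ≤ r2 + 2 * d0 + 1 := by linarith
    nlinarith
  have hKp0 : 0 < K := by linarith
  set ε : ℝ := 1 / K with hε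
  have hεp : 0 < ε := by positivity
  have hε2 : ε ≤ 1 / 2 := by
    rw [hε]; apply one_div_le_one_div_of_le <;> linarith
  obtain ⟨N, hN, a, ha, ha4, ha5⟩ := exists_address T hT hF d0 hd0 hd ε hεp
  have ha2 : ∀ P P' : T, ‖a P - a P'‖ ≤ 6 * ρ → ‖kap P.1.1 - kap P'.1.1‖ ≤ r2 :=
    fun P P' h => address_inj T d0 hd0 ε hεp hε2 a ha (6 * ρ) P P' h
  set η : ℝ := ε * (r2 + 2 * d0 + 1) with hη
  have hη0 : 0 ≤ η := by positivity
  have hη' : 4 * ((M : ℝ) + 1) * η = 1 / 1000 := by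
    rw [hη, hε, hK]
    have h1 : (0 : ℝ) < M + 1 := by positivity
    have h2 : (0 : ℝ) < r2 + 2 * d0 + 1 := by linarith
    field_simp
    norm_num
  have hM0 : (0 : ℝ) ≤ M := Nat.cast_nonneg _
  refine ⟨{ d0 := d0, hd0 := hd0, hd := hd, N := N, hN := hN, a := a, ρ := ρ, hρ := hρ1, r2 := r2,
            hr2 := hr20, η := η, hη := hη0, hη1 := ?_, M := M, a1 := ?_, a2 := ha2, a3 := ?_,
            a4 := ha4, a5 := ha5, a6 := ?_, a7 := ?_ }⟩
  · nlinarith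
  · exact address_surj T hT d0 hd0 hd ε hεp hε2 a ha
  · intro P P' h
    have h1 := ha P P'
    have h2 := ha2 P P' h
    have e : (kap P.1.1 - a P) - (kap P'.1.1 - a P') =
      -((a P - a P') - (kap P.1.1 - kap P'.1.1)) := by ring
    rw [e, norm_neg]
    refine h1.trans ?_
    rw [hη]
    gcongr
  · intro ℓ
    by_cases hne : {P : T | ‖a P - ℓ‖ ≤ 3 * ρ}.Nonempty
    · obtain ⟨P1, hP1⟩ := hne
      obtain ⟨hf, hc⟩ := hM (kap P1.1.1)
      have hmaps : ∀ P ∈ {P : T | ‖a P - ℓ‖ ≤ 3 * ρ}, P.1 ∈ {t | t ∈ T ∧ ‖kap t.1 - kap P1.1.1‖ ≤ r2} := by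
        intro P hP
        refine ⟨P.2, ha2 P P1 ?_⟩
        have e : a P - a P1 = (a P - ℓ) - (a P1 - ℓ) := by ring
        rw [e]
        refine (norm_sub_le _ _).trans ?_
        have h1 : ‖a P - ℓ‖ ≤ 3 * ρ := hP
        have h2 : ‖a P1 - ℓ‖ ≤ 3 * ρ := hP1
        linarith
      have hinj : Set.InjOn (fun P : T => P.1) {P : T | ‖a P - ℓ‖ ≤ 3 * ρ} :=
        fun P _ Q _ h => Subtype.ext h
      have him : (fun P : T => P.1) '' {P : T | ‖a P - ℓ‖ ≤ 3 * ρ} ⊆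
          {t | t ∈ T ∧ ‖kap t.1 - kap P1.1.1‖ ≤ r2} := by
        rintro _ ⟨P, hP, rfl⟩
        exact hmaps P hP
      refine ⟨Set.Finite.of_finite_image (hf.subset him) hinj, ?_⟩
      calc _ = ((fun P : T => P.1) '' {P : T | ‖a P - ℓ‖ ≤ 3 * ρ}).ncard :=
            (Set.ncard_image_of_injOn hinj).symm
        _ ≤ _ := Set.ncard_le_ncard him hf
        _ ≤ M := hc
    · rw [Set.not_nonempty_iff_eq_empty] at hne
      rw [hne]; simp
  · nlinarith

namespace Data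
variable {T : Set (Tile C)} (d : Data T)

/-- lattice point -/
noncomputable def pt (p : ℤ × ℤ) : ℂ := ((p.1 : ℂ) + (p.2 : ℂ) * Complex.I) / d.N

noncomputable def h (p : ℤ × ℤ) : ℂ := KK (fun P : T => kap P.1.1) d.a d.ρ (d.pt p)

theorem Npos : (0 : ℝ) < d.N := by exact_mod_cast d.hN

theorem Nne : (d.N : ℂ) ≠ 0 := by exact_mod_cast d.hN.ne'

theorem inv_le : 1 / (d.N : ℝ) ≤ 1 := by
  rw [div_le_one d.Npos]; exact_mod_cast d.hN

theorem h1 (i j : ℤ) : ‖d.h (i + 1, j) - d.h (i, j) - ((1 / (d.N : ℝ) : ℝ) : ℂ)‖ ≤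
    (1 / (d.N : ℝ)) / 1000 := by
  have e : d.pt (i + 1, j) - d.pt (i, j) = ((1 / (d.N : ℝ) : ℝ) : ℂ) := by
    unfold pt; push_cast; field_simp; ring
  have hn : ‖d.pt (i + 1, j) - d.pt (i, j)‖ = 1 / (d.N : ℝ) := by
    rw [e, Complex.norm_real, Real.norm_eq_abs, abs_of_nonneg (by have := d.Npos; positivity)]
  have := KK_lipschitz (fun P : T => kap P.1.1) d.a d.ρ d.η d.M d.hρ d.hη d.a1 d.a3 d.a6
    (d.pt (i + 1, j)) (d.pt (i, j)) (by rw [hn]; exact d.inv_le)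
  rw [hn, e] at this
  refine this.trans ?_
  have h7 := d.a7
  have h8 : 0 ≤ 1 / (d.N : ℝ) := by have := d.Npos; positivity
  nlinarith

theorem h2 (i j : ℤ) : ‖d.h (i, j + 1) - d.h (i, j) - ((1 / (d.N : ℝ) : ℝ) : ℂ) * Complex.I‖ ≤
    (1 / (d.N : ℝ)) / 1000 := by
  have e : d.pt (i, j + 1) - d.pt (i, j) = ((1 / (d.N : ℝ) : ℝ) : ℂ) * Complex.I := by
    unfold pt; push_cast; field_simp; ring
  have hn : ‖d.pt (i, j + 1) - d.pt (i, j)‖ = 1 / (d.N : ℝ) := by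
    rw [e, norm_mul, Complex.norm_I, mul_one, Complex.norm_real, Real.norm_eq_abs,
      abs_of_nonneg (by have := d.Npos; positivity)]
  have := KK_lipschitz (fun P : T => kap P.1.1) d.a d.ρ d.η d.M d.hρ d.hη d.a1 d.a3 d.a6
    (d.pt (i, j + 1)) (d.pt (i, j)) (by rw [hn]; exact d.inv_le)
  rw [hn, e] at this
  refine this.trans ?_
  have h7 := d.a7
  have h8 : 0 ≤ 1 / (d.N : ℝ) := by have := d.Npos; positivity
  nlinarith

theorem sp : (0 : ℝ) < 1 / (d.N : ℝ) := by have := d.Npos; positivity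

/-- The radius of local derivability. -/
noncomputable def RR : ℝ := d.r2 + 3 * d.ρ + d.d0 + 100

/-- the tile of the new tiling -/
noncomputable def tile (k : ℤ × ℤ × Bool) : Tile (Set (Tile C)) :=
  (tri d.h k, cap (-kap (tri d.h k)) T (ball 0 20))

/-- the new tiling -/
noncomputable def newT : Set (Tile (Set (Tile C))) := Set.range d.tile

theorem meets_of_kap {P : Tile C} (hT : IsTiling T) (hP : P ∈ T) {x : ℂ} {R : ℝ}
    (h : ‖kap P.1 - x‖ + d.d0 < R) : ∃ z ∈ P.1, ‖z - x‖ < R := by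
  obtain ⟨z, hz⟩ := (hT.polygon P hP).nonempty
  refine ⟨z, hz, ?_⟩
  have e : z - x = (z - kap P.1) + (kap P.1 - x) := by ring
  rw [e]
  refine (norm_add_le _ _).trans_lt ?_
  linarith [d.hd P hP z hz]

/-- the deformed lattice is locally derivable -/
theorem h_shift (hT : IsTiling T) {x y : ℂ}
    (hxy : cap (-x) T (ball 0 d.RR) = cap (-y) T (ball 0 d.RR)) (P1 P1' : T)
    (hP1 : ‖kap P1.1.1 - x‖ ≤ d.d0) (hP1' : P1'.1 = Tile.tr (y - x) P1.1) (m n : ℤ)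
    (hmn : (d.N : ℂ) * (d.a P1' - d.a P1) = (m : ℂ) + (n : ℂ) * Complex.I) (p : ℤ × ℤ)
    (hp : ‖d.h p - x‖ ≤ 20) : d.h (p.1 + m, p.2 + n) = d.h p + (y - x) := by
  set s : ℂ := d.a P1' - d.a P1 with hs
  have hkap : ∀ (v : ℂ) (P : Tile C), P ∈ T → kap (Tile.tr v P).1 = v + kap P.1 := by
    intro v P hP
    exact kap_tr v P.1 (hT.polygon P hP).nonempty (hT.polygon P hP).compact
  have hpt : d.pt (p.1 + m, p.2 + n) = d.pt p + s := by
    have : s = ((m : ℂ) + (n : ℂ) * Complex.I) / d.N := by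
      rw [← hmn]; field_simp [d.Nne]
    rw [this]; unfold pt; push_cast; field_simp; ring
  have hη1 := d.hη1
  have hρ := d.hρ
  have hr2 := d.hr2
  have hd0 := d.hd0
  -- tiles with address near `pt p`
  have near : ∀ P : T, ‖d.pt p - d.a P‖ < 2 * d.ρ → ‖kap P.1.1 - x‖ ≤ 3 * d.ρ + 21 := by
    intro P hP
    have h3 := KK_near (fun P : T => kap P.1.1) d.a d.ρ d.η d.hρ d.hη d.a1 d.a3
      (fun ℓ => (d.a6 ℓ).1) (d.pt p) P (by rw [norm_sub_rev]; linarith)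
    have e : kap P.1.1 - x = (d.h p - x) - (d.h p - kap P.1.1) := by ring
    rw [e]
    refine (norm_sub_le _ _).trans ?_
    have : ‖d.h p - kap P.1.1‖ ≤ d.η + 3 * d.ρ := h3
    linarith
  have fwd : ∀ P : T, ‖d.pt p - d.a P‖ < 2 * d.ρ → ∃ hm : Tile.tr (y - x) P.1 ∈ T,
      d.a ⟨_, hm⟩ = d.a P + s := by
    intro P hP
    have hm : Tile.tr (y - x) P.1 ∈ T := by
      refine patch_transfer hxy P.1 P.2 (d.meets_of_kap hT P.2 ?_)
      have := near P hP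
      unfold RR; linarith
    refine ⟨hm, ?_⟩
    have := d.a4 ⟨_, hm⟩ P1' P P1 (by
      rw [hP1']
      simp only
      rw [hkap _ _ P.2, hkap _ _ P1.2]; ring)
    rw [hs]; linear_combination this
  obtain ⟨P2, hP2⟩ := d.a1 (d.pt p)
  have hP2' : ‖d.pt p - d.a P2‖ < 2 * d.ρ := by rw [norm_sub_rev]; linarith
  have bwd : ∀ Q : T, ‖d.pt p + s - d.a Q‖ < 2 * d.ρ → ∃ hm : Tile.tr (x - y) Q.1 ∈ T,
      d.a ⟨_, hm⟩ = d.a Q - s := by
    intro Q hQ
    obtain ⟨hm2, ha2⟩ := fwd P2 hP2'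
    have h3 : ‖d.a Q - d.a ⟨_, hm2⟩‖ ≤ 6 * d.ρ := by
      rw [ha2]
      have e : d.a Q - (d.a P2 + s) = (d.pt p - d.a P2) - (d.pt p + s - d.a Q) := by ring
      rw [e]
      refine (norm_sub_le _ _).trans ?_
      linarith
    have h4 := d.a2 _ _ h3
    have h5 : kap (Tile.tr (y - x) P2.1).1 = (y - x) + kap P2.1.1 := hkap _ _ P2.2
    simp only at h4
    rw [h5] at h4
    have h6 : ‖kap Q.1.1 - y‖ ≤ d.r2 + 3 * d.ρ + 21 := by
      have e : kap Q.1.1 - y = (kap Q.1.1 - (y - x + kap P2.1.1)) + (kap P2.1.1 - x) := by ring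
      rw [e]
      refine (norm_add_le _ _).trans ?_
      linarith [near P2 hP2']
    have hm : Tile.tr (x - y) Q.1 ∈ T := by
      refine patch_transfer hxy.symm Q.1 Q.2 (d.meets_of_kap hT Q.2 ?_)
      unfold RR; linarith
    refine ⟨hm, ?_⟩
    have := d.a4 ⟨_, hm⟩ P1 Q P1' (by
      rw [hP1']
      simp only
      rw [hkap _ _ Q.2, hkap _ _ P1.2]; ring)
    rw [hs]; linear_combination this
  let f : {P : T // ‖d.pt p - d.a P‖ < 2 * d.ρ} → {P : T // ‖d.pt p + s - d.a P‖ < 2 * d.ρ} :=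
    fun P => ⟨⟨Tile.tr (y - x) P.1.1, (fwd P.1 P.2).1⟩, by
      rw [(fwd P.1 P.2).2]
      have e : d.pt p + s - (d.a P.1 + s) = d.pt p - d.a P.1 := by ring
      rw [e]; exact P.2⟩
  have hfinj : Function.Injective f := by
    intro P Q hPQ
    apply Subtype.ext; apply Subtype.ext
    have h3 := congrArg (fun z => z.1.1) hPQ
    exact tr_injective2 _ h3
  have hfsurj : Function.Surjective f := by
    intro Q
    obtain ⟨hm, ha⟩ := bwd Q.1 Q.2
    refine ⟨⟨⟨_, hm⟩, ?_⟩, ?_⟩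
    · rw [ha]
      have e : d.pt p - (d.a Q.1 - s) = d.pt p + s - d.a Q.1 := by ring
      rw [e]; exact Q.2
    · apply Subtype.ext; apply Subtype.ext
      simp only [f]
      rw [tr_tr]
      have : y - x + (x - y) = 0 := by ring
      rw [this, tr_zero]
  have key := KK_shift (fun P : T => kap P.1.1) d.a d.ρ (d.pt p) s (y - x)
    (((d.a6 (d.pt p)).1).subset (by
      intro P hP
      simp only [mem_setOf_eq] at hP ⊢
      rw [norm_sub_rev]; linarith)) ⟨P2, hP2'⟩ (Equiv.ofBijective f ⟨hfinj, hfsurj⟩)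
    (fun P => (fwd P.1 P.2).2) (fun P => by
      change kap (Tile.tr (y - x) P.1.1).1 = kap P.1.1.1 + (y - x)
      rw [hkap _ _ P.1.2]; ring)
  unfold h
  rw [hpt]
  exact key

theorem tri_shift {h : ℤ × ℤ → ℂ} {v : ℂ} {m n : ℤ} (k : ℤ × ℤ × Bool)
    (h0 : h (k.1 + m, k.2.1 + n) = h (k.1, k.2.1) + v)
    (h1 : h (k.1 + 1 + m, k.2.1 + 1 + n) = h (k.1 + 1, k.2.1 + 1) + v)
    (h2 : k.2.2 = true → h (k.1 + m, k.2.1 + 1 + n) = h (k.1, k.2.1 + 1) + v)
    (h3 : k.2.2 = false → h (k.1 + 1 + m, k.2.1 + n) = h (k.1 + 1, k.2.1) + v) :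
    tri h (k.1 + m, k.2.1 + n, k.2.2) = (fun z => v + z) '' tri h k := by
  have himg : ∀ s : Set ℂ, (fun z => v + z) '' convexHull ℝ s = convexHull ℝ ((fun z => v + z) '' s) := by
    intro s
    have := (AffineEquiv.constVAdd ℝ ℂ v).toAffineMap.image_convexHull s
    simpa using this
  unfold tri
  rw [himg]
  congr 1
  simp only [Set.image_insert_eq, Set.image_singleton]
  rw [h0]
  have e1 : k.1 + m + 1 = k.1 + 1 + m := by ring
  have e2 : k.2.1 + n + 1 = k.2.1 + 1 + n := by ring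
  rw [e1, e2, h1]
  by_cases hb : k.2.2 = true
  · rw [if_pos hb, if_pos hb, h2 hb]
    simp [add_comm]
  · rw [if_neg hb, if_neg hb, h3 (by simpa using hb)]
    simp [add_comm]

theorem derive_new_one (hT : IsTiling T) {x y : ℂ}
    (hxy : cap (-x) T (ball 0 d.RR) = cap (-y) T (ball 0 d.RR)) :
    cap (-x) d.newT {0} ⊆ cap (-y) d.newT {0} := by
  intro t ht
  rw [mem_cap_zero] at ht ⊢
  obtain ⟨_, ⟨k, rfl⟩, hxk, rfl⟩ := ht
  have hxk' : x ∈ tri d.h k := hxk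
  obtain ⟨P, hP, hxP⟩ := hT.cover x
  have hRR : 100 ≤ d.RR := by
    unfold RR; have := d.hr2; have := d.hρ; have := d.hd0; linarith
  have hP' : Tile.tr (y - x) P ∈ T := patch_transfer hxy P hP ⟨x, hxP, by simp; linarith⟩
  obtain ⟨m, n, hmn⟩ := d.a5 ⟨_, hP'⟩ ⟨P, hP⟩
  have hs : ∀ p, ‖d.h p - x‖ ≤ 20 → d.h (p.1 + m, p.2 + n) = d.h p + (y - x) :=
    fun p hp => d.h_shift hT hxy ⟨P, hP⟩ ⟨_, hP'⟩ (by
      rw [norm_sub_rev]; exact d.hd P hP x hxP) rfl m n hmn p hp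
  have hdi : ∀ z ∈ tri d.h k, ‖z - d.h (k.1, k.2.1)‖ ≤ 3 := by
    intro z hz
    have := tri_diam d.sp d.h1 d.h2 k z hz
    have := d.inv_le
    linarith
  have hv : ∀ w ∈ ({d.h (k.1, k.2.1), d.h (k.1 + 1, k.2.1 + 1),
    if k.2.2 then d.h (k.1, k.2.1 + 1) else d.h (k.1 + 1, k.2.1)} : Set ℂ), ‖w - x‖ ≤ 6 := by
    intro w hw
    have hw' : w ∈ tri d.h k := subset_convexHull ℝ _ hw
    have e : w - x = (w - d.h (k.1, k.2.1)) - (x - d.h (k.1, k.2.1)) := by ring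
    rw [e]
    refine (norm_sub_le _ _).trans ?_
    linarith [hdi w hw', hdi x hxk']
  have htri : tri d.h (k.1 + m, k.2.1 + n, k.2.2) = (fun z => (y - x) + z) '' tri d.h k := by
    apply tri_shift
    · exact hs (k.1, k.2.1) ((hv _ (by simp)).trans (by norm_num))
    · exact hs (k.1 + 1, k.2.1 + 1) ((hv _ (by simp)).trans (by norm_num))
    · intro hb
      exact hs (k.1, k.2.1 + 1) ((hv _ (by simp [hb])).trans (by norm_num))
    · intro hb
      exact hs (k.1 + 1, k.2.1) ((hv _ (by simp [hb])).trans (by norm_num))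
  have hpoly := (tri_family d.sp d.h1 d.h2).1 k
  have hkk : kap (tri d.h (k.1 + m, k.2.1 + n, k.2.2)) = (y - x) + kap (tri d.h k) := by
    rw [htri]; exact kap_tr _ _ hpoly.nonempty hpoly.compact
  have hkx : ‖kap (tri d.h k) - x‖ ≤ 12 := by
    refine (kap_near (r := 6) hpoly.nonempty ?_).trans (by norm_num)
    intro z hz
    have e : z - x = (z - d.h (k.1, k.2.1)) - (x - d.h (k.1, k.2.1)) := by ring
    rw [e]
    refine (norm_sub_le _ _).trans ?_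
    linarith [hdi z hz, hdi x hxk']
  refine ⟨d.tile (k.1 + m, k.2.1 + n, k.2.2), ⟨_, rfl⟩, ?_, ?_⟩
  · change y ∈ tri d.h _
    rw [htri]
    exact ⟨x, hxk', by ring⟩
  · -- equality of the translated tiles
    have hcol : cap (-kap (tri d.h (k.1 + m, k.2.1 + n, k.2.2))) T (ball 0 20) =
        cap (-kap (tri d.h k)) T (ball 0 20) := by
      rw [hkk]
      ext t
      rw [mem_cap_ball, mem_cap_ball]
      constructor
      · rintro ⟨s, hs, ⟨z, hz, hzz⟩, rfl⟩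
        refine ⟨Tile.tr (x - y) s, patch_transfer hxy.symm s hs ⟨z, hz, ?_⟩, ⟨z + (x - y), ?_, ?_⟩, ?_⟩
        · have e : z - y = (z - (y - x + kap (tri d.h k))) + (kap (tri d.h k) - x) := by ring
          rw [e]
          refine (norm_add_le _ _).trans_lt ?_
          linarith
        · rw [mem_tr, add_sub_cancel_right]; exact hz
        · have e : z + (x - y) - kap (tri d.h k) = z - (y - x + kap (tri d.h k)) := by ring
          rw [e]; exact hzz
        · rw [tr_tr]; congr 1; ring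
      · rintro ⟨s, hs, ⟨z, hz, hzz⟩, rfl⟩
        refine ⟨Tile.tr (y - x) s, patch_transfer hxy s hs ⟨z, hz, ?_⟩, ⟨z + (y - x), ?_, ?_⟩, ?_⟩
        · have e : z - x = (z - kap (tri d.h k)) + (kap (tri d.h k) - x) := by ring
          rw [e]
          refine (norm_add_le _ _).trans_lt ?_
          linarith
        · rw [mem_tr, add_sub_cancel_right]; exact hz
        · have e : z + (y - x) - (y - x + kap (tri d.h k)) = z - kap (tri d.h k) := by ring
          rw [e]; exact hzz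
        · rw [tr_tr]; congr 1; ring
    unfold tile Tile.tr
    simp only
    rw [hcol, htri, Set.image_image]
    congr 2
    funext z; ring

theorem derive_new (hT : IsTiling T) : LocallyDerivable d.newT T := by
  refine ⟨d.RR, ?_, fun x y hxy => ?_⟩
  · unfold RR; have := d.hr2; have := d.hρ; have := d.hd0; linarith
  · exact Set.Subset.antisymm (d.derive_new_one hT hxy) (d.derive_new_one hT hxy.symm)

theorem derive_old_one (_hT : IsTiling T) {x y : ℂ}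
    (hxy : cap (-x) d.newT (ball 0 1) = cap (-y) d.newT (ball 0 1)) :
    cap (-x) T {0} ⊆ cap (-y) T {0} := by
  intro t ht
  rw [mem_cap_zero] at ht ⊢
  obtain ⟨s, hs, hxs, rfl⟩ := ht
  obtain ⟨hpoly, hcover, -, -, -⟩ := tri_family d.sp d.h1 d.h2
  obtain ⟨k, hk⟩ := hcover x
  have hmem := patch_transfer hxy (d.tile k) ⟨k, rfl⟩ ⟨x, hk, by simp⟩
  obtain ⟨l, hl⟩ := hmem
  have hl1 : tri d.h l = (fun z => (y - x) + z) '' tri d.h k := congrArg Prod.fst hl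
  have hl2 : cap (-kap (tri d.h l)) T (ball 0 20) = cap (-kap (tri d.h k)) T (ball 0 20) :=
    congrArg Prod.snd hl
  have hkk : kap (tri d.h l) = (y - x) + kap (tri d.h k) := by
    rw [hl1]; exact kap_tr _ _ (hpoly k).nonempty (hpoly k).compact
  have hdi : ∀ z ∈ tri d.h k, ‖z - d.h (k.1, k.2.1)‖ ≤ 3 := by
    intro z hz
    have := tri_diam d.sp d.h1 d.h2 k z hz
    have := d.inv_le
    linarith
  have hkx : ‖kap (tri d.h k) - x‖ ≤ 12 := by
    refine (kap_near (r := 6) (hpoly k).nonempty ?_).trans (by norm_num)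
    intro z hz
    have e : z - x = (z - d.h (k.1, k.2.1)) - (x - d.h (k.1, k.2.1)) := by ring
    rw [e]
    refine (norm_sub_le _ _).trans ?_
    linarith [hdi z hz, hdi x hk]
  have h3 : Tile.tr (-kap (tri d.h k)) s ∈ cap (-kap (tri d.h k)) T (ball 0 20) := by
    rw [mem_cap_ball]
    refine ⟨s, hs, ⟨x, hxs, ?_⟩, rfl⟩
    rw [norm_sub_rev]; linarith
  rw [← hl2, mem_cap_ball] at h3
  obtain ⟨s', hs', -, h4⟩ := h3
  have h5 : s' = Tile.tr (y - x) s := by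
    have := congrArg (Tile.tr (kap (tri d.h l))) h4
    rw [tr_tr, tr_tr, add_neg_cancel, tr_zero, hkk] at this
    rw [← this]
    congr 1; ring
  refine ⟨s', hs', ?_, ?_⟩
  · rw [h5, mem_tr]
    have : y - (y - x) = x := by ring
    rw [this]; exact hxs
  · rw [h5, tr_tr]; congr 1; ring

theorem derive_old (hT : IsTiling T) : LocallyDerivable T d.newT := by
  refine ⟨1, one_pos, fun x y hxy => ?_⟩
  exact Set.Subset.antisymm (d.derive_old_one hT hxy) (d.derive_old_one hT hxy.symm)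

end Data

end H994.Mld
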