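import Mathlib
import Pool.Agent.H994.Mld.Defs

set_option autoImplicit false

open Set Metric

namespace H994.Mld

namespace P1

/-- affine interpolation on a cell of the lattice triangulation -/
noncomputable def cell (g : ℤ × ℤ → ℂ) (i j : ℤ) (u v : ℝ) : ℂ :=
  g (i, j) + ((min u v : ℝ) : ℂ) * (g (i + 1, j + 1) - g (i, j)) +
    ((max 0 (u - v) : ℝ) : ℂ) * (g (i + 1, j) - g (i, j)) +
    ((max 0 (v - u) : ℝ) : ℂ) * (g (i, j + 1) - g (i, j))

/-- piecewise linear interpolation -/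
noncomputable def pl (g : ℤ × ℤ → ℂ) (x y : ℝ) : ℂ :=
  cell g ⌊x⌋ ⌊y⌋ (x - ⌊x⌋) (y - ⌊y⌋)

lemma cell_one_left (g : ℤ × ℤ → ℂ) (i j : ℤ) (v : ℝ) (h0 : 0 ≤ v) (h1 : v ≤ 1) :
    cell g i j 1 v = cell g (i + 1) j 0 v := by
  unfold cell
  rw [min_eq_right h1, max_eq_right (by linarith : (0 : ℝ) ≤ 1 - v),
    max_eq_left (by linarith : v - 1 ≤ (0 : ℝ)), min_eq_left h0,
    max_eq_left (by linarith : 0 - v ≤ (0 : ℝ)), max_eq_right (by linarith : (0 : ℝ) ≤ v - 0)]
  push_cast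
  ring

lemma cell_one_right (g : ℤ × ℤ → ℂ) (i j : ℤ) (u : ℝ) (h0 : 0 ≤ u) (h1 : u ≤ 1) :
    cell g i j u 1 = cell g i (j + 1) u 0 := by
  unfold cell
  rw [min_eq_left h1, max_eq_left (by linarith : u - 1 ≤ (0 : ℝ)),
    max_eq_right (by linarith : (0 : ℝ) ≤ 1 - u), min_eq_right h0,
    max_eq_right (by linarith : (0 : ℝ) ≤ u - 0), max_eq_left (by linarith : 0 - u ≤ (0 : ℝ))]
  push_cast
  ring

lemma floor_cases {x : ℝ} {i : ℤ} (h0 : (i : ℝ) ≤ x) (h1 : x ≤ i + 1) :
    (⌊x⌋ = i) ∨ (x = i + 1 ∧ ⌊x⌋ = i + 1) := by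
  rcases h1.lt_or_eq with h | h
  · left
    exact Int.floor_eq_iff.2 ⟨h0, h⟩
  · right
    refine ⟨h, Int.floor_eq_iff.2 ⟨?_, ?_⟩⟩ <;> push_cast <;> linarith

lemma pl_eq (g : ℤ × ℤ → ℂ) {x y : ℝ} {i j : ℤ} (hx0 : (i : ℝ) ≤ x) (hx1 : x ≤ i + 1)
    (hy0 : (j : ℝ) ≤ y) (hy1 : y ≤ j + 1) : pl g x y = cell g i j (x - i) (y - j) := by
  unfold pl
  rcases floor_cases hx0 hx1 with h | ⟨h, h'⟩
  · rcases floor_cases hy0 hy1 with k | ⟨k, k'⟩
    · rw [h, k]
    · rw [h, k', k]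
      have e1 : ((j : ℝ) + 1 - ((j + 1 : ℤ) : ℝ)) = 0 := by push_cast; ring
      have e2 : ((j : ℝ) + 1 - (j : ℝ)) = 1 := by ring
      rw [e1, e2, cell_one_right g i j _ (by linarith) (by linarith)]
  · rcases floor_cases hy0 hy1 with k | ⟨k, k'⟩
    · rw [h', k, h]
      have e1 : ((i : ℝ) + 1 - ((i + 1 : ℤ) : ℝ)) = 0 := by push_cast; ring
      have e2 : ((i : ℝ) + 1 - (i : ℝ)) = 1 := by ring
      rw [e1, e2, cell_one_left g i j _ (by linarith) (by linarith)]
    · rw [h', k', h, k]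
      have e1 : ((i : ℝ) + 1 - ((i + 1 : ℤ) : ℝ)) = 0 := by push_cast; ring
      have e2 : ((i : ℝ) + 1 - (i : ℝ)) = 1 := by ring
      have e3 : ((j : ℝ) + 1 - ((j + 1 : ℤ) : ℝ)) = 0 := by push_cast; ring
      have e4 : ((j : ℝ) + 1 - (j : ℝ)) = 1 := by ring
      rw [e1, e2, e3, e4, cell_one_left g i j _ zero_le_one le_rfl,
        cell_one_right g (i + 1) j _ le_rfl zero_le_one]

/-- gluing Lipschitz estimates over the integer intervals -/
lemma glue (f : ℝ → ℂ) (L : ℝ)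
    (h : ∀ i : ℤ, ∀ x y : ℝ, (i : ℝ) ≤ x → x ≤ i + 1 → (i : ℝ) ≤ y → y ≤ i + 1 →
      ‖f x - f y‖ ≤ L * |x - y|) (x y : ℝ) : ‖f x - f y‖ ≤ L * |x - y| := by
  have key : ∀ n : ℕ, ∀ i : ℤ, ∀ x y : ℝ, (i : ℝ) ≤ x → x ≤ i + 1 → (i : ℝ) + n ≤ y →
      y ≤ i + n + 1 → x ≤ y → ‖f x - f y‖ ≤ L * (y - x) := by
    intro n
    induction n with
    | zero =>
      intro i x y h0 h1 h2 h3 hxy
      have := h i x y h0 h1 (by simpa using h2) (by simpa using h3)
      rwa [abs_sub_comm, abs_of_nonneg (by linarith)] at this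
    | succ n ih =>
      intro i x y h0 h1 h2 h3 hxy
      push_cast at h2 h3
      have e1 := ih i x (i + n + 1) h0 h1 (by linarith) le_rfl (by
        have : (0 : ℝ) ≤ n := Nat.cast_nonneg n
        linarith)
      have e2 := h (i + n + 1) (i + n + 1) y (by push_cast; linarith) (by push_cast; linarith)
        (by push_cast; linarith) (by push_cast; linarith)
      rw [abs_sub_comm, abs_of_nonneg (by linarith)] at e2
      calc ‖f x - f y‖ = ‖(f x - f (i + n + 1)) + (f (i + n + 1) - f y)‖ := by ring_nf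
        _ ≤ ‖f x - f (i + n + 1)‖ + ‖f (i + n + 1) - f y‖ := norm_add_le _ _
        _ ≤ L * (i + n + 1 - x) + L * (y - (i + n + 1)) := add_le_add e1 e2
        _ = L * (y - x) := by ring
  have key2 : ∀ x y : ℝ, x ≤ y → ‖f x - f y‖ ≤ L * (y - x) := by
    intro x y hxy
    have hfl : ⌊x⌋ ≤ ⌊y⌋ := Int.floor_le_floor hxy
    obtain ⟨n, hn⟩ := Int.eq_ofNat_of_zero_le (sub_nonneg.2 hfl)
    have hn' : (⌊y⌋ : ℝ) = ⌊x⌋ + n := by
      have : ⌊y⌋ = ⌊x⌋ + n := by omega
      rw [this]; push_cast; ring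
    apply key n ⌊x⌋ x y (Int.floor_le x) (Int.lt_floor_add_one x).le _ _ hxy
    · rw [← hn']; exact Int.floor_le y
    · rw [← hn']; exact (Int.lt_floor_add_one y).le
  rcases le_total x y with hxy | hxy
  · rw [abs_sub_comm, abs_of_nonneg (by linarith)]
    exact key2 x y hxy
  · rw [norm_sub_rev, abs_of_nonneg (by linarith)]
    exact key2 y x hxy

lemma cell_lip_left (g : ℤ × ℤ → ℂ) (η : ℝ) (i j : ℤ)
    (h1 : ‖g (i + 1, j) - g (i, j)‖ ≤ η) (h2 : ‖g (i, j + 1) - g (i, j)‖ ≤ η)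
    (h3 : ‖g (i + 1, j + 1) - g (i, j)‖ ≤ 2 * η) (u u' v v' : ℝ) :
    ‖cell g i j u v - cell g i j u' v'‖ ≤ 4 * η * (|u - u'| + |v - v'|) := by
  have e : cell g i j u v - cell g i j u' v' =
      ((min u v - min u' v' : ℝ) : ℂ) * (g (i + 1, j + 1) - g (i, j)) +
      ((max 0 (u - v) - max 0 (u' - v') : ℝ) : ℂ) * (g (i + 1, j) - g (i, j)) +
      ((max 0 (v - u) - max 0 (v' - u') : ℝ) : ℂ) * (g (i, j + 1) - g (i, j)) := by
    unfold cell; push_cast; ring
  have a1 : |min u v - min u' v'| ≤ |u - u'| + |v - v'| := by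
    refine (abs_min_sub_min_le_max u v u' v').trans ?_
    exact max_le (by linarith [abs_nonneg (v - v')]) (by linarith [abs_nonneg (u - u')])
  have a2 : |max 0 (u - v) - max 0 (u' - v')| ≤ |u - u'| + |v - v'| := by
    refine (abs_max_sub_max_le_max 0 (u - v) 0 (u' - v')).trans ?_
    apply max_le
    · simp only [sub_self, abs_zero]; positivity
    · have : u - v - (u' - v') = (u - u') - (v - v') := by ring
      rw [this]; exact abs_sub _ _
  have a3 : |max 0 (v - u) - max 0 (v' - u')| ≤ |u - u'| + |v - v'| := by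
    refine (abs_max_sub_max_le_max 0 (v - u) 0 (v' - u')).trans ?_
    apply max_le
    · simp only [sub_self, abs_zero]; positivity
    · have : v - u - (v' - u') = (v - v') - (u - u') := by ring
      rw [this, add_comm]; exact abs_sub _ _
  rw [e]
  refine (norm_add₃_le).trans ?_
  rw [norm_mul, norm_mul, norm_mul, Complex.norm_real, Complex.norm_real, Complex.norm_real,
    Real.norm_eq_abs, Real.norm_eq_abs, Real.norm_eq_abs]
  have hs : 0 ≤ |u - u'| + |v - v'| := by positivity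
  have b1 := mul_le_mul a1 h3 (norm_nonneg _) hs
  have b2 := mul_le_mul a2 h1 (norm_nonneg _) hs
  have b3 := mul_le_mul a3 h2 (norm_nonneg _) hs
  linarith

lemma pl_lip (g : ℤ × ℤ → ℂ) (η : ℝ)
    (h1 : ∀ i j : ℤ, ‖g (i + 1, j) - g (i, j)‖ ≤ η)
    (h2 : ∀ i j : ℤ, ‖g (i, j + 1) - g (i, j)‖ ≤ η) (x x' y y' : ℝ) :
    ‖pl g x y - pl g x' y'‖ ≤ 4 * η * (|x - x'| + |y - y'|) := by
  have h3 : ∀ i j : ℤ, ‖g (i + 1, j + 1) - g (i, j)‖ ≤ 2 * η := by
    intro i j
    have : g (i + 1, j + 1) - g (i, j) = (g (i + 1, j + 1) - g (i + 1, j)) +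
      (g (i + 1, j) - g (i, j)) := by ring
    rw [this]
    refine (norm_add_le _ _).trans ?_
    linarith [h1 i j, h2 (i + 1) j]
  have l1 : ∀ y : ℝ, ∀ x x' : ℝ, ‖pl g x y - pl g x' y‖ ≤ 4 * η * |x - x'| := by
    intro y
    apply glue (fun x => pl g x y)
    intro i x x' hx0 hx1 hx0' hx1'
    rw [pl_eq g hx0 hx1 (Int.floor_le y) (Int.lt_floor_add_one y).le,
      pl_eq g hx0' hx1' (Int.floor_le y) (Int.lt_floor_add_one y).le]
    have := cell_lip_left g η i ⌊y⌋ (h1 _ _) (h2 _ _) (h3 _ _) (x - i) (x' - i) (y - ⌊y⌋) (y - ⌊y⌋)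
    simpa using this
  have l2 : ∀ x : ℝ, ∀ y y' : ℝ, ‖pl g x y - pl g x y'‖ ≤ 4 * η * |y - y'| := by
    intro x
    apply glue (fun y => pl g x y)
    intro j y y' hy0 hy1 hy0' hy1'
    rw [pl_eq g (Int.floor_le x) (Int.lt_floor_add_one x).le hy0 hy1,
      pl_eq g (Int.floor_le x) (Int.lt_floor_add_one x).le hy0' hy1']
    have := cell_lip_left g η ⌊x⌋ j (h1 _ _) (h2 _ _) (h3 _ _) (x - ⌊x⌋) (x - ⌊x⌋) (y - j) (y' - j)
    simpa using this
  calc ‖pl g x y - pl g x' y'‖ = ‖(pl g x y - pl g x' y) + (pl g x' y - pl g x' y')‖ := by ring_nf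
    _ ≤ ‖pl g x y - pl g x' y‖ + ‖pl g x' y - pl g x' y'‖ := norm_add_le _ _
    _ ≤ 4 * η * |x - x'| + 4 * η * |y - y'| := add_le_add (l1 _ _ _) (l2 _ _ _)
    _ = 4 * η * (|x - x'| + |y - y'|) := by ring

/-- the affine map `z ↦ r + re z • p + im z • q` -/
noncomputable def aff (p q r : ℂ) : ℂ →ᵃ[ℝ] ℂ where
  toFun z := r + (z.re : ℂ) * p + (z.im : ℂ) * q
  linear :=
    { toFun := fun z => (z.re : ℂ) * p + (z.im : ℂ) * q
      map_add' := by intro a b; simp only [Complex.add_re, Complex.add_im]; push_cast; ring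
      map_smul' := by
        intro a b
        simp only [Complex.real_smul, Complex.re_ofReal_mul, Complex.im_ofReal_mul,
          RingHom.id_apply]
        push_cast; ring }
  map_vadd' := by
    intro a b
    simp only [vadd_eq_add, Complex.add_re, Complex.add_im, LinearMap.coe_mk, AddHom.coe_mk]
    push_cast; ring

lemma aff_apply (p q r z : ℂ) : aff p q r z = r + (z.re : ℂ) * p + (z.im : ℂ) * q := rfl

end P1

open P1

theorem exists_pl (h : ℤ × ℤ → ℂ) (s : ℝ) (hs : 0 < s)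
    (h1 : ∀ i j : ℤ, ‖h (i + 1, j) - h (i, j) - (s : ℂ)‖ ≤ s / 1000)
    (h2 : ∀ i j : ℤ, ‖h (i, j + 1) - h (i, j) - (s : ℂ) * Complex.I‖ ≤ s / 1000) :
    ∃ F : ℂ ≃ₜ ℂ, ∀ k, F '' std k = tri h k := by
  have hsc : (s : ℂ) ≠ 0 := by exact_mod_cast hs.ne'
  set g : ℤ × ℤ → ℂ := fun k => h k / s - ((k.1 : ℂ) + (k.2 : ℂ) * Complex.I) with hg
  have hdiv : ∀ w : ℂ, ‖w‖ ≤ s / 1000 → ‖w / s‖ ≤ 1 / 1000 := by
    intro w hw
    rw [norm_div, Complex.norm_real, Real.norm_of_nonneg hs.le, div_le_iff₀ hs]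
    linarith
  have g1 : ∀ i j : ℤ, ‖g (i + 1, j) - g (i, j)‖ ≤ 1 / 1000 := by
    intro i j
    have : g (i + 1, j) - g (i, j) = (h (i + 1, j) - h (i, j) - (s : ℂ)) / s := by
      simp only [hg]; push_cast; field_simp; ring
    rw [this]; exact hdiv _ (h1 i j)
  have g2 : ∀ i j : ℤ, ‖g (i, j + 1) - g (i, j)‖ ≤ 1 / 1000 := by
    intro i j
    have : g (i, j + 1) - g (i, j) = (h (i, j + 1) - h (i, j) - (s : ℂ) * Complex.I) / s := by
      simp only [hg]; push_cast; field_simp; ring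
    rw [this]; exact hdiv _ (h2 i j)
  -- the homeomorphism
  let G : ℂ → ℂ := fun z => z + pl g z.re z.im
  have hG : ApproximatesLinearOn G ((ContinuousLinearEquiv.refl ℝ ℂ : ℂ ≃L[ℝ] ℂ) : ℂ →L[ℝ] ℂ)
      univ (1 / 2 : NNReal) := by
    intro z _ w _
    have e : G z - G w - ((ContinuousLinearEquiv.refl ℝ ℂ : ℂ ≃L[ℝ] ℂ) : ℂ →L[ℝ] ℂ) (z - w) =
        pl g z.re z.im - pl g w.re w.im := by
      simp only [G, ContinuousLinearEquiv.coe_refl, ContinuousLinearMap.coe_id', id_eq]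
      ring
    rw [e]
    have l := pl_lip g (1 / 1000) g1 g2 z.re w.re z.im w.im
    have r1 : |z.re - w.re| ≤ ‖z - w‖ := by
      have := Complex.abs_re_le_norm (z - w)
      simpa using this
    have r2 : |z.im - w.im| ≤ ‖z - w‖ := by
      have := Complex.abs_im_le_norm (z - w)
      simpa using this
    refine l.trans ?_
    have : ((1 / 2 : NNReal) : ℝ) = 1 / 2 := by norm_num
    rw [this]
    linarith [norm_nonneg (z - w)]
  have hN : (1 / 2 : NNReal) <
      ‖((ContinuousLinearEquiv.refl ℝ ℂ : ℂ ≃L[ℝ] ℂ).symm : ℂ →L[ℝ] ℂ)‖₊⁻¹ := by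
    have : ‖((ContinuousLinearEquiv.refl ℝ ℂ : ℂ ≃L[ℝ] ℂ).symm : ℂ →L[ℝ] ℂ)‖₊ = 1 := by
      apply NNReal.eq
      simp
    rw [this, inv_one]
    exact NNReal.half_lt_self one_ne_zero
  let H : ℂ ≃ₜ ℂ := hG.toHomeomorph G (Or.inr hN)
  refine ⟨H.trans (Homeomorph.mulLeft₀ (s : ℂ) hsc), ?_⟩
  have hval : ∀ z : ℂ, (H.trans (Homeomorph.mulLeft₀ (s : ℂ) hsc)) z =
      s * (z + pl g z.re z.im) := by
    intro z; rfl
  -- on the cells
  have hcell : ∀ (z : ℂ) (i j : ℤ), (i : ℝ) ≤ z.re → z.re ≤ i + 1 → (j : ℝ) ≤ z.im →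
      z.im ≤ j + 1 → (H.trans (Homeomorph.mulLeft₀ (s : ℂ) hsc)) z =
        cell h i j (z.re - i) (z.im - j) := by
    intro z i j hx0 hx1 hy0 hy1
    rw [hval, pl_eq g hx0 hx1 hy0 hy1]
    have hk : ∀ k, h k = s * (g k + ((k.1 : ℂ) + (k.2 : ℂ) * Complex.I)) := by
      intro k; simp only [hg]; field_simp; ring
    unfold cell
    rw [hk (i, j), hk (i + 1, j + 1), hk (i + 1, j), hk (i, j + 1)]
    have m1 : min (z.re - i) (z.im - j) + max 0 (z.re - i - (z.im - j)) = z.re - i := by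
      rcases le_total (z.re - i) (z.im - j) with h | h
      · rw [min_eq_left h, max_eq_left (by linarith)]; ring
      · rw [min_eq_right h, max_eq_right (by linarith)]; ring
    have m2 : min (z.re - i) (z.im - j) + max 0 (z.im - j - (z.re - i)) = z.im - j := by
      rcases le_total (z.re - i) (z.im - j) with h | h
      · rw [min_eq_left h, max_eq_right (by linarith)]; ring
      · rw [min_eq_right h, max_eq_left (by linarith)]; ring
    have z1 : z = ((z.re : ℝ) : ℂ) + ((z.im : ℝ) : ℂ) * Complex.I := (Complex.re_add_im z).symm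
    set m := min (z.re - i) (z.im - j)
    set p := max 0 (z.re - i - (z.im - j))
    set q := max 0 (z.im - j - (z.re - i))
    have m1' : (z.re : ℂ) = (m : ℂ) + p + i := by
      have : z.re = m + p + i := by linarith
      exact_mod_cast congrArg (fun t : ℝ => (t : ℂ)) this
    have m2' : (z.im : ℂ) = (m : ℂ) + q + j := by
      have : z.im = m + q + j := by linarith
      exact_mod_cast congrArg (fun t : ℝ => (t : ℂ)) this
    have z2 : z = ((m : ℂ) + p + i) + ((m : ℂ) + q + j) * Complex.I := by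
      rw [← m1', ← m2']; exact z1
    generalize hgz : z = zz at z2
    rw [z2]
    push_cast
    ring
  rintro ⟨i, j, b⟩
  cases b
  · -- lower triangle
    have hmem : ∀ z ∈ std (i, j, false), (j : ℝ) ≤ z.im ∧ z.im - j ≤ z.re - i ∧ z.re ≤ i + 1 := by
      intro z hz
      have hconv : Convex ℝ {z : ℂ | (j : ℝ) ≤ z.im ∧ z.im - j ≤ z.re - i ∧ z.re ≤ i + 1} := by
        intro z hz w hw a b ha hb hab
        simp only [mem_setOf_eq, Complex.add_re, Complex.add_im, Complex.real_smul,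
          Complex.re_ofReal_mul, Complex.im_ofReal_mul] at hz hw ⊢
        have hb' : b = 1 - a := by linarith
        subst hb'
        refine ⟨?_, ?_, ?_⟩ <;> nlinarith [hz.1, hz.2.1, hz.2.2, hw.1, hw.2.1, hw.2.2]
      refine convexHull_min ?_ hconv hz
      intro w hw
      simp only [Bool.false_eq_true, if_false, mem_insert_iff, mem_singleton_iff] at hw
      rcases hw with rfl | rfl | rfl <;> simp only [mem_setOf_eq] <;> push_cast <;>
        refine ⟨?_, ?_, ?_⟩ <;> linarith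
    have hEq : EqOn (H.trans (Homeomorph.mulLeft₀ (s : ℂ) hsc))
        (aff (h (i + 1, j) - h (i, j)) (h (i + 1, j + 1) - h (i + 1, j))
          (h (i, j) - (i : ℂ) * (h (i + 1, j) - h (i, j)) -
            (j : ℂ) * (h (i + 1, j + 1) - h (i + 1, j)))) (std (i, j, false)) := by
      intro z hz
      obtain ⟨a1, a2, a3⟩ := hmem z hz
      rw [hcell z i j (by linarith) a3 a1 (by linarith), aff_apply]
      unfold cell
      rw [min_eq_right a2, max_eq_right (by linarith), max_eq_left (by linarith)]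
      push_cast
      ring
    rw [hEq.image_eq]
    unfold std tri
    rw [AffineMap.image_convexHull, image_insert_eq, image_insert_eq, image_singleton]
    simp only [aff_apply, Bool.false_eq_true, if_false]
    congr 1
    congr 1
    · push_cast; ring
    · congr 1
      · push_cast; ring
      · congr 1
        push_cast; ring
  · -- upper triangle
    have hmem : ∀ z ∈ std (i, j, true), (i : ℝ) ≤ z.re ∧ z.re - i ≤ z.im - j ∧ z.im ≤ j + 1 := by
      intro z hz
      have hconv : Convex ℝ {z : ℂ | (i : ℝ) ≤ z.re ∧ z.re - i ≤ z.im - j ∧ z.im ≤ j + 1} := by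
        intro z hz w hw a b ha hb hab
        simp only [mem_setOf_eq, Complex.add_re, Complex.add_im, Complex.real_smul,
          Complex.re_ofReal_mul, Complex.im_ofReal_mul] at hz hw ⊢
        have hb' : b = 1 - a := by linarith
        subst hb'
        refine ⟨?_, ?_, ?_⟩ <;> nlinarith [hz.1, hz.2.1, hz.2.2, hw.1, hw.2.1, hw.2.2]
      refine convexHull_min ?_ hconv hz
      intro w hw
      simp only [if_true, mem_insert_iff, mem_singleton_iff] at hw
      rcases hw with rfl | rfl | rfl <;> simp only [mem_setOf_eq] <;> push_cast <;>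
        refine ⟨?_, ?_, ?_⟩ <;> linarith
    have hEq : EqOn (H.trans (Homeomorph.mulLeft₀ (s : ℂ) hsc))
        (aff (h (i + 1, j + 1) - h (i, j + 1)) (h (i, j + 1) - h (i, j))
          (h (i, j) - (i : ℂ) * (h (i + 1, j + 1) - h (i, j + 1)) -
            (j : ℂ) * (h (i, j + 1) - h (i, j)))) (std (i, j, true)) := by
      intro z hz
      obtain ⟨a1, a2, a3⟩ := hmem z hz
      rw [hcell z i j a1 (by linarith) (by linarith) a3, aff_apply]
      unfold cell
      rw [min_eq_left a2, max_eq_left (by linarith), max_eq_right (by linarith)]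
      push_cast
      ring
    rw [hEq.image_eq]
    unfold std tri
    rw [AffineMap.image_convexHull, image_insert_eq, image_insert_eq, image_singleton]
    simp only [aff_apply, if_true]
    congr 1
    congr 1
    · push_cast; ring
    · congr 1
      · push_cast; ring
      · congr 1
        push_cast; ring

end H994.Mld
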