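import Pool.Agent.H994.Mld.P3

open Set Metric

namespace H994.Mld

theorem mem_std_false (i j : ℤ) (z : ℂ) : z ∈ std (i, j, false) ↔
    0 ≤ z.im - j ∧ z.im - j ≤ z.re - i ∧ z.re - i ≤ 1 := by
  unfold std tri
  simp only [Bool.false_eq_true, if_false]
  rw [mem_hull3]
  constructor
  · rintro ⟨a, b, c, ha, hb, hc, hs, rfl⟩
    have hc' : a = 1 - b - c := by linarith
    subst hc'
    simp only [Complex.add_re, Complex.real_smul, Complex.mul_re, Complex.ofReal_re,
      Complex.ofReal_im, zero_mul, sub_zero, Complex.add_im, Complex.mul_im, add_zero]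
    push_cast
    refine ⟨?_, ?_, ?_⟩ <;> ring_nf <;> linarith
  · rintro ⟨h1, h2, h3⟩
    refine ⟨1 - (z.re - i), z.im - j, (z.re - i) - (z.im - j), by linarith, h1, by linarith,
      by ring, ?_⟩
    apply Complex.ext
    · simp only [Complex.add_re, Complex.real_smul, Complex.mul_re, Complex.ofReal_re,
        Complex.ofReal_im, zero_mul, sub_zero]
      push_cast
      ring
    · simp only [Complex.real_smul, Complex.ofReal_re,
        Complex.ofReal_im, zero_mul, Complex.add_im, Complex.mul_im, add_zero]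
      push_cast
      ring

theorem mem_std_true (i j : ℤ) (z : ℂ) : z ∈ std (i, j, true) ↔
    0 ≤ z.re - i ∧ z.re - i ≤ z.im - j ∧ z.im - j ≤ 1 := by
  unfold std tri
  simp only [if_true]
  rw [mem_hull3]
  constructor
  · rintro ⟨a, b, c, ha, hb, hc, hs, rfl⟩
    have hc' : a = 1 - b - c := by linarith
    subst hc'
    simp only [Complex.add_re, Complex.real_smul, Complex.mul_re, Complex.ofReal_re,
      Complex.ofReal_im, zero_mul, sub_zero, Complex.add_im, Complex.mul_im, add_zero]
    push_cast
    refine ⟨?_, ?_, ?_⟩ <;> ring_nf <;> linarith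
  · rintro ⟨h1, h2, h3⟩
    refine ⟨1 - (z.im - j), z.re - i, (z.im - j) - (z.re - i), by linarith, h1, by linarith,
      by ring, ?_⟩
    apply Complex.ext
    · simp only [Complex.add_re, Complex.real_smul, Complex.mul_re, Complex.ofReal_re,
        Complex.ofReal_im, zero_mul, sub_zero]
      push_cast
      ring
    · simp only [Complex.real_smul, Complex.ofReal_re,
        Complex.ofReal_im, zero_mul, Complex.add_im, Complex.mul_im, add_zero]
      push_cast
      ring

theorem std_cover (z : ℂ) : ∃ k, z ∈ std k := by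
  have h1 := Int.floor_le z.re
  have h2 := (Int.lt_floor_add_one z.re).le
  have h3 := Int.floor_le z.im
  have h4 := (Int.lt_floor_add_one z.im).le
  rcases le_total (z.im - ⌊z.im⌋) (z.re - ⌊z.re⌋) with h | h
  · refine ⟨(⌊z.re⌋, ⌊z.im⌋, false), ?_⟩
    rw [mem_std_false]
    exact ⟨by linarith, h, by linarith⟩
  · refine ⟨(⌊z.re⌋, ⌊z.im⌋, true), ?_⟩
    rw [mem_std_true]
    exact ⟨by linarith, h, by linarith⟩

theorem strict_std (k : ℤ × ℤ × Bool) (z : ℂ) (ε : ℝ) (hε : 0 < ε) (h : ball z ε ⊆ std k) :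
    (k.1 : ℝ) < z.re ∧ z.re < k.1 + 1 ∧ (k.2.1 : ℝ) < z.im ∧ z.im < k.2.1 + 1 ∧
    (k.2.2 = false → z.im - k.2.1 < z.re - k.1) ∧
    (k.2.2 = true → z.re - k.1 < z.im - k.2.1) := by
  obtain ⟨i, j, b⟩ := k
  have e1 : z + ((ε / 2 : ℝ) : ℂ) ∈ std (i, j, b) := h (by
    rw [mem_ball, dist_eq_norm, add_sub_cancel_left, Complex.norm_real, Real.norm_eq_abs,
      abs_of_pos (by positivity)]
    linarith)
  have e2 : z - ((ε / 2 : ℝ) : ℂ) ∈ std (i, j, b) := h (by
    rw [mem_ball, dist_eq_norm, sub_sub_cancel_left, norm_neg, Complex.norm_real, Real.norm_eq_abs,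
      abs_of_pos (by positivity)]
    linarith)
  have e3 : z + ((ε / 2 : ℝ) : ℂ) * Complex.I ∈ std (i, j, b) := h (by
    rw [mem_ball, dist_eq_norm, add_sub_cancel_left, norm_mul, Complex.norm_I, mul_one,
      Complex.norm_real, Real.norm_eq_abs, abs_of_pos (by positivity)]
    linarith)
  have e4 : z - ((ε / 2 : ℝ) : ℂ) * Complex.I ∈ std (i, j, b) := h (by
    rw [mem_ball, dist_eq_norm, sub_sub_cancel_left, norm_neg, norm_mul, Complex.norm_I, mul_one,
      Complex.norm_real, Real.norm_eq_abs, abs_of_pos (by positivity)]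
    linarith)
  cases b with
  | false =>
    rw [mem_std_false] at e1 e2 e3 e4
    simp at e1 e2 e3 e4
    refine ⟨?_, ?_, ?_, ?_, ?_, ?_⟩
    · simp only; linarith
    · simp only; linarith
    · simp only; linarith
    · simp only; linarith
    · intro _; simp only; linarith
    · intro h5; simp at h5
  | true =>
    rw [mem_std_true] at e1 e2 e3 e4
    simp at e1 e2 e3 e4
    refine ⟨?_, ?_, ?_, ?_, ?_, ?_⟩
    · simp only; linarith
    · simp only; linarith
    · simp only; linarith
    · simp only; linarith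
    · intro h5; simp at h5
    · intro _; simp only; linarith

theorem std_interior (k l : ℤ × ℤ × Bool) (h : k ≠ l) : interior (std k ∩ std l) = ∅ := by
  rw [eq_empty_iff_forall_notMem]
  intro z hz
  rw [mem_interior_iff_mem_nhds, Metric.mem_nhds_iff] at hz
  obtain ⟨ε, hε, hball⟩ := hz
  obtain ⟨h1, h2, h3, h4, h5, h6⟩ := strict_std k z ε hε (hball.trans inter_subset_left)
  obtain ⟨g1, g2, g3, g4, g5, g6⟩ := strict_std l z ε hε (hball.trans inter_subset_right)
  apply h
  obtain ⟨i, j, b⟩ := k
  obtain ⟨i', j', b'⟩ := l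
  simp only at *
  have a1 : i < i' + 1 := by
    have : (i : ℝ) < i' + 1 := by linarith
    exact_mod_cast this
  have a2 : i' < i + 1 := by
    have : (i' : ℝ) < i + 1 := by linarith
    exact_mod_cast this
  have a3 : j < j' + 1 := by
    have : (j : ℝ) < j' + 1 := by linarith
    exact_mod_cast this
  have a4 : j' < j + 1 := by
    have : (j' : ℝ) < j + 1 := by linarith
    exact_mod_cast this
  have hi : i = i' := by omega
  have hj : j = j' := by omega
  subst hi hj
  cases b <;> cases b'
  · rfl
  · exfalso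
    have := h5 rfl
    have := g6 rfl
    linarith
  · exfalso
    have := h6 rfl
    have := g5 rfl
    linarith
  · rfl

theorem std_inter (k l : ℤ × ℤ × Bool) (h : k ≠ l) (h2 : (std k ∩ std l).Nontrivial) :
    HexAdj k l := by
  obtain ⟨z, ⟨hz1, hz2⟩, w, ⟨hw1, hw2⟩, hne⟩ := h2
  obtain ⟨i, j, b⟩ := k
  obtain ⟨i', j', b'⟩ := l
  have key : ∀ (x y : ℝ) (b : Bool) (i j : ℤ), (⟨x, y⟩ : ℂ) ∈ std (i, j, b) →
      (i : ℝ) ≤ x ∧ x ≤ i + 1 ∧ (j : ℝ) ≤ y ∧ y ≤ j + 1 := by
    intro x y b i j hb
    cases b with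
    | false =>
      rw [mem_std_false] at hb
      simp only at hb
      refine ⟨by linarith, by linarith, by linarith, by linarith⟩
    | true =>
      rw [mem_std_true] at hb
      simp only at hb
      refine ⟨by linarith, by linarith, by linarith, by linarith⟩
  obtain ⟨p1, p2, p3, p4⟩ := key z.re z.im b i j hz1
  obtain ⟨q1, q2, q3, q4⟩ := key z.re z.im b' i' j' hz2
  have a1 : i ≤ i' + 1 := by
    have : (i : ℝ) ≤ i' + 1 := by linarith
    exact_mod_cast this
  have a2 : i' ≤ i + 1 := by
    have : (i' : ℝ) ≤ i + 1 := by linarith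
    exact_mod_cast this
  have a3 : j ≤ j' + 1 := by
    have : (j : ℝ) ≤ j' + 1 := by linarith
    exact_mod_cast this
  have a4 : j' ≤ j + 1 := by
    have : (j' : ℝ) ≤ j + 1 := by linarith
    exact_mod_cast this
  have hi : i' = i - 1 ∨ i' = i ∨ i' = i + 1 := by omega
  have hj : j' = j - 1 ∨ j' = j ∨ j' = j + 1 := by omega
  clear a1 a2 a3 a4 p1 p2 p3 p4 q1 q2 q3 q4 key
  have hext : z.re = w.re → z.im = w.im → False := fun e1 e2 => hne (Complex.ext e1 e2)
  clear hne
  unfold HexAdj
  simp only
  cases b <;> cases b'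
  · -- false false
    exfalso
    rw [mem_std_false] at hz1 hz2 hw1 hw2
    rcases hi with rfl | rfl | rfl <;> rcases hj with rfl | rfl | rfl <;> push_cast at hz2 hw2 <;>
      first
      | exact h rfl
      | exact hext (by linarith) (by linarith)
  · rw [mem_std_false] at hz1 hw1
    rw [mem_std_true] at hz2 hw2
    rcases hi with rfl | rfl | rfl <;> rcases hj with rfl | rfl | rfl <;> push_cast at hz2 hw2 <;>
      first
      | (exfalso; exact hext (by linarith) (by linarith))
      | simp
  · rw [mem_std_true] at hz1 hw1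
    rw [mem_std_false] at hz2 hw2
    rcases hi with rfl | rfl | rfl <;> rcases hj with rfl | rfl | rfl <;> push_cast at hz2 hw2 <;>
      first
      | (exfalso; exact hext (by linarith) (by linarith))
      | simp
  · exfalso
    rw [mem_std_true] at hz1 hz2 hw1 hw2
    rcases hi with rfl | rfl | rfl <;> rcases hj with rfl | rfl | rfl <;> push_cast at hz2 hw2 <;>
      first
      | exact h rfl
      | exact hext (by linarith) (by linarith)

end H994.Mld
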