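import Pool.Agent.H994.Mld.Defs

open Set Metric

namespace H994.Mld

/-- membership in a triangle -/
theorem mem_hull3 (A B C z : ℂ) : z ∈ convexHull ℝ ({A, B, C} : Set ℂ) ↔
    ∃ a b c : ℝ, 0 ≤ a ∧ 0 ≤ b ∧ 0 ≤ c ∧ a + b + c = 1 ∧ z = a • A + b • B + c • C := by
  constructor
  · intro hz
    have hmin : convexHull ℝ ({A, B, C} : Set ℂ) ⊆
        {z | ∃ a b c : ℝ, 0 ≤ a ∧ 0 ≤ b ∧ 0 ≤ c ∧ a + b + c = 1 ∧ z = a • A + b • B + c • C} := by
      apply convexHull_min
      · intro w hw
        simp only [mem_insert_iff, mem_singleton_iff] at hw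
        rcases hw with rfl | rfl | rfl
        · exact ⟨1, 0, 0, by norm_num, by norm_num, by norm_num, by norm_num, by simp⟩
        · exact ⟨0, 1, 0, by norm_num, by norm_num, by norm_num, by norm_num, by simp⟩
        · exact ⟨0, 0, 1, by norm_num, by norm_num, by norm_num, by norm_num, by simp⟩
      · rintro x ⟨a, b, c, ha, hb, hc, hs, rfl⟩ y ⟨a', b', c', ha', hb', hc', hs', rfl⟩ s t hs0 ht0 hst
        refine ⟨s * a + t * a', s * b + t * b', s * c + t * c', by positivity, by positivity,
          by positivity, ?_, ?_⟩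
        · have : s * a + t * a' + (s * b + t * b') + (s * c + t * c') =
              s * (a + b + c) + t * (a' + b' + c') := by ring
          rw [this, hs, hs']; linarith
        · simp only [smul_add, add_smul, mul_smul]
          abel
    exact hmin hz
  · rintro ⟨a, b, c, ha, hb, hc, hs, rfl⟩
    have h := Convex.sum_mem (t := (Finset.univ : Finset (Fin 3))) (w := ![a, b, c])
      (z := ![A, B, C]) (convex_convexHull ℝ ({A, B, C} : Set ℂ))
      (by intro i _; fin_cases i <;> simpa)
      (by simpa [Fin.sum_univ_three] using hs)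
      (by
        intro i _
        fin_cases i
        · exact subset_convexHull ℝ _ (by simp)
        · exact subset_convexHull ℝ _ (by simp)
        · exact subset_convexHull ℝ _ (by simp))
    simpa [Fin.sum_univ_three] using h

/-- twice the signed area -/
noncomputable def dt (A B C : ℂ) : ℝ :=
  (B.re - A.re) * (C.im - A.im) - (B.im - A.im) * (C.re - A.re)

/-- barycentric coordinate with respect to the third vertex -/
noncomputable def bc (A B C z : ℂ) : ℝ := dt A B z / dt A B C

theorem dt_rot (A B C : ℂ) : dt B C A = dt A B C := by unfold dt; ring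

theorem dt_add (A B C z : ℂ) : dt B C z + dt C A z + dt A B z = dt A B C := by unfold dt; ring

theorem bc_sum (A B C z : ℂ) (h : dt A B C ≠ 0) :
    bc B C A z + bc C A B z + bc A B C z = 1 := by
  have h1 : dt B C A = dt A B C := dt_rot A B C
  have h2 : dt C A B = dt A B C := by rw [← dt_rot, ← dt_rot]
  unfold bc
  rw [h1, h2, ← add_div, ← add_div, dt_add, div_self h]

theorem bc_comb (A B C z : ℂ) (h : dt A B C ≠ 0) :
    z = (bc B C A z) • A + (bc C A B z) • B + (bc A B C z) • C := by
  have h1 : dt B C A = dt A B C := dt_rot A B C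
  have h2 : dt C A B = dt A B C := by rw [← dt_rot, ← dt_rot]
  unfold bc
  rw [h1, h2]
  apply Complex.ext
  · simp only [Complex.add_re, Complex.real_smul, Complex.mul_re, Complex.ofReal_re,
      Complex.ofReal_im, zero_mul, sub_zero]
    field_simp
    unfold dt
    ring
  · simp only [Complex.add_im, Complex.real_smul, Complex.mul_im, Complex.ofReal_re,
      Complex.ofReal_im, zero_mul, add_zero]
    field_simp
    unfold dt
    ring

theorem bc_affine (A B C P Q R : ℂ) (a b c : ℝ) (h : a + b + c = 1) :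
    bc A B C (a • P + b • Q + c • R) = a * bc A B C P + b * bc A B C Q + c * bc A B C R := by
  have hc : a = 1 - b - c := by linarith
  subst hc
  unfold bc
  rw [← mul_div_assoc, ← mul_div_assoc, ← mul_div_assoc, ← add_div, ← add_div]
  congr 1
  unfold dt
  simp only [Complex.add_re, Complex.real_smul, Complex.mul_re, Complex.ofReal_re,
      Complex.ofReal_im, zero_mul, sub_zero, Complex.add_im, Complex.mul_im, add_zero]
  ring

theorem bc_self (A B C : ℂ) (h : dt A B C ≠ 0) :
    bc A B C C = 1 ∧ bc A B C A = 0 ∧ bc A B C B = 0 := by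
  refine ⟨?_, ?_, ?_⟩
  · unfold bc; exact div_self h
  · unfold bc; rw [show dt A B A = 0 by unfold dt; ring, zero_div]
  · unfold bc; rw [show dt A B B = 0 by unfold dt; ring, zero_div]

theorem mem_hull3_iff (A B C z : ℂ) (h : dt A B C ≠ 0) :
    z ∈ convexHull ℝ ({A, B, C} : Set ℂ) ↔
      0 ≤ bc B C A z ∧ 0 ≤ bc C A B z ∧ 0 ≤ bc A B C z := by
  have h1 : dt B C A ≠ 0 := by rw [dt_rot]; exact h
  have h2 : dt C A B ≠ 0 := by rw [dt_rot]; exact h1
  rw [mem_hull3]
  constructor
  · rintro ⟨a, b, c, ha, hb, hc, hs, rfl⟩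
    rw [bc_affine _ _ _ _ _ _ _ _ _ hs, bc_affine _ _ _ _ _ _ _ _ _ hs,
      bc_affine _ _ _ _ _ _ _ _ _ hs, (bc_self A B C h).1, (bc_self A B C h).2.1,
      (bc_self A B C h).2.2, (bc_self B C A h1).1, (bc_self B C A h1).2.1,
      (bc_self B C A h1).2.2, (bc_self C A B h2).1, (bc_self C A B h2).2.1,
      (bc_self C A B h2).2.2]
    simp [ha, hb, hc]
  · rintro ⟨ha, hb, hc⟩
    exact ⟨_, _, _, ha, hb, hc, bc_sum A B C z h, bc_comb A B C z h⟩

/-- coefficients of the half plane `0 ≤ bc A B C z` -/
noncomputable def hp (A B C : ℂ) : ℝ × ℝ × ℝ :=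
  ((B.im - A.im) / dt A B C, -((B.re - A.re) / dt A B C),
    (A.re * (B.im - A.im) - A.im * (B.re - A.re)) / dt A B C)

theorem hp_iff (A B C z : ℂ) :
    (hp A B C).1 * z.re + (hp A B C).2.1 * z.im - (hp A B C).2.2 = - bc A B C z := by
  unfold hp bc
  simp only
  have : dt A B z = (B.re - A.re) * (z.im - A.im) - (B.im - A.im) * (z.re - A.re) := rfl
  rw [this]
  ring

theorem hp_ne (A B C : ℂ) (h : dt A B C ≠ 0) :
    ((hp A B C).1, (hp A B C).2.1) ≠ ((0 : ℝ), (0 : ℝ)) := by
  intro h1
  simp only [hp, Prod.mk.injEq, neg_eq_zero] at h1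
  apply h
  rcases div_eq_zero_iff.mp h1.1 with h2 | h2
  · rcases div_eq_zero_iff.mp h1.2 with h3 | h3
    · unfold dt; rw [h2, h3]; ring
    · exact absurd h3 h
  · exact absurd h2 h

theorem bc_cont (A B C : ℂ) : Continuous (bc A B C) := by
  unfold bc dt
  have h1 := Complex.continuous_re
  have h2 := Complex.continuous_im
  fun_prop

theorem isPolygon_triangle (A B C : ℂ)
    (h : (B.re - A.re) * (C.im - A.im) - (B.im - A.im) * (C.re - A.re) ≠ 0) :
    IsPolygon (convexHull ℝ {A, B, C}) := by
  classical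
  change dt A B C ≠ 0 at h
  have h1 : dt B C A ≠ 0 := by rw [dt_rot]; exact h
  have h2 : dt C A B ≠ 0 := by rw [dt_rot]; exact h1
  refine ⟨⟨A, subset_convexHull ℝ _ (by simp)⟩, ?_, ?_, ?_⟩
  · exact (Set.toFinite ({A, B, C} : Set ℂ)).isCompact_convexHull ℝ
  · have hne : (interior (convexHull ℝ ({A, B, C} : Set ℂ))).Nonempty := by
      set O : Set ℂ := {z | 0 < bc B C A z ∧ 0 < bc C A B z ∧ 0 < bc A B C z} with hO
      have hOo : IsOpen O := by
        have e1 : IsOpen {z | 0 < bc B C A z} := isOpen_lt continuous_const (bc_cont _ _ _)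
        have e2 : IsOpen {z | 0 < bc C A B z} := isOpen_lt continuous_const (bc_cont _ _ _)
        have e3 : IsOpen {z | 0 < bc A B C z} := isOpen_lt continuous_const (bc_cont _ _ _)
        exact e1.inter (e2.inter e3)
      have hOs : O ⊆ convexHull ℝ ({A, B, C} : Set ℂ) := by
        rintro z ⟨ha, hb, hc⟩
        rw [mem_hull3_iff A B C z h]
        exact ⟨ha.le, hb.le, hc.le⟩
      refine ⟨(1 / 3 : ℝ) • A + (1 / 3 : ℝ) • B + (1 / 3 : ℝ) • C, interior_maximal hOs hOo ?_⟩
      rw [hO]
      have hs : (1 / 3 : ℝ) + 1 / 3 + 1 / 3 = 1 := by norm_num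
      refine ⟨?_, ?_, ?_⟩
      · rw [bc_affine _ _ _ _ _ _ _ _ _ hs, (bc_self B C A h1).1, (bc_self B C A h1).2.1,
          (bc_self B C A h1).2.2]; norm_num
      · rw [bc_affine _ _ _ _ _ _ _ _ _ hs, (bc_self C A B h2).1, (bc_self C A B h2).2.1,
          (bc_self C A B h2).2.2]; norm_num
      · rw [bc_affine _ _ _ _ _ _ _ _ _ hs, (bc_self A B C h).1, (bc_self A B C h).2.1,
          (bc_self A B C h).2.2]; norm_num
    rw [(convex_convexHull ℝ ({A, B, C} : Set ℂ)).closure_interior_eq_closure_of_nonempty_interior hne]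
    exact subset_closure
  · refine ⟨{hp B C A, hp C A B, hp A B C}, ?_, ?_⟩
    · intro s hs
      simp only [Finset.mem_insert, Finset.mem_singleton] at hs
      rcases hs with rfl | rfl | rfl
      · exact hp_ne _ _ _ h1
      · exact hp_ne _ _ _ h2
      · exact hp_ne _ _ _ h
    · ext z
      rw [mem_hull3_iff A B C z h]
      simp only [Finset.mem_insert, Finset.mem_singleton, forall_eq_or_imp, forall_eq,
        mem_ofPred_eq]
      have e1 := hp_iff B C A z
      have e2 := hp_iff C A B z
      have e3 := hp_iff A B C z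
      constructor
      · rintro ⟨ha, hb, hc⟩
        exact ⟨by linarith, by linarith, by linarith⟩
      · rintro ⟨ha, hb, hc⟩
        exact ⟨by linarith, by linarith, by linarith⟩

theorem isEdge_triangle (A B C : ℂ)
    (h : (B.re - A.re) * (C.im - A.im) - (B.im - A.im) * (C.re - A.re) ≠ 0) :
    IsEdge (segment ℝ A B) (convexHull ℝ {A, B, C}) := by
  change dt A B C ≠ 0 at h
  refine ⟨⟨A, left_mem_segment ℝ A B, B, right_mem_segment ℝ A B, ?_⟩, ?_⟩
  · rintro rfl
    apply h
    unfold dt; ring
  · refine ⟨(hp A B C).1, (hp A B C).2.1, (hp A B C).2.2, hp_ne A B C h, ?_, ?_⟩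
    · intro z hz
      rw [mem_hull3_iff A B C z h] at hz
      have e3 := hp_iff A B C z
      linarith [hz.2.2]
    · ext z
      simp only [mem_ofPred_eq]
      constructor
      · intro hz
        have hz1 : z ∈ convexHull ℝ ({A, B, C} : Set ℂ) := by
          have := segment_subset_convexHull (𝕜 := ℝ) (s := ({A, B, C} : Set ℂ)) (x := A) (y := B)
            (by simp) (by simp)
          exact this hz
        refine ⟨hz1, ?_⟩
        obtain ⟨a, b, ha, hb, hab, rfl⟩ := hz
        have e3 := hp_iff A B C (a • A + b • B)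
        have e4 : bc A B C (a • A + b • B) = 0 := by
          have := bc_affine A B C A B A a b 0 (by linarith)
          rw [zero_smul, add_zero, (bc_self A B C h).2.1, (bc_self A B C h).2.2] at this
          rw [this]; ring
        linarith
      · rintro ⟨hz, hz2⟩
        rw [mem_hull3_iff A B C z h] at hz
        have e3 := hp_iff A B C z
        have e4 : bc A B C z = 0 := by linarith
        have e5 := bc_sum A B C z h
        have e6 := bc_comb A B C z h
        rw [e4, add_zero] at e5
        rw [e4, zero_smul, add_zero] at e6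
        exact ⟨_, _, hz.1, hz.2.1, e5, e6.symm⟩

end H994.Mld
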