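import Pool.Agent.H994.Mld.Defs
import Pool.Agent.H994.Mld.P1
import Pool.Agent.H994.Mld.P2
import Pool.Agent.H994.Mld.P3

open Set Metric

namespace H994.Mld

theorem re_im_le {z : ℂ} {c : ℝ} (h : ‖z‖ ≤ c) : |z.re| ≤ c ∧ |z.im| ≤ c :=
  ⟨(Complex.abs_re_le_norm z).trans h, (Complex.abs_im_le_norm z).trans h⟩

section
variable {h : ℤ × ℤ → ℂ} {s : ℝ}

/-- coordinates of the steps -/
theorem step1 (h1 : ∀ i j : ℤ, ‖h (i + 1, j) - h (i, j) - (s : ℂ)‖ ≤ s / 1000) (i j : ℤ) :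
    |(h (i + 1, j)).re - (h (i, j)).re - s| ≤ s / 1000 ∧
      |(h (i + 1, j)).im - (h (i, j)).im| ≤ s / 1000 := by
  have := re_im_le (h1 i j)
  simpa using this

theorem step2 (h2 : ∀ i j : ℤ, ‖h (i, j + 1) - h (i, j) - (s : ℂ) * Complex.I‖ ≤ s / 1000)
    (i j : ℤ) :
    |(h (i, j + 1)).re - (h (i, j)).re| ≤ s / 1000 ∧
      |(h (i, j + 1)).im - (h (i, j)).im - s| ≤ s / 1000 := by
  have := re_im_le (h2 i j)
  simpa using this

theorem tri_det (hs : 0 < s)
    (h1 : ∀ i j : ℤ, ‖h (i + 1, j) - h (i, j) - (s : ℂ)‖ ≤ s / 1000)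
    (h2 : ∀ i j : ℤ, ‖h (i, j + 1) - h (i, j) - (s : ℂ) * Complex.I‖ ≤ s / 1000) (i j : ℤ) :
    (((h (i + 1, j + 1)).re - (h (i, j)).re) * ((h (i + 1, j)).im - (h (i, j)).im) -
      ((h (i + 1, j + 1)).im - (h (i, j)).im) * ((h (i + 1, j)).re - (h (i, j)).re) < 0) ∧
    (((h (i + 1, j + 1)).re - (h (i, j)).re) * ((h (i, j + 1)).im - (h (i, j)).im) -
      ((h (i + 1, j + 1)).im - (h (i, j)).im) * ((h (i, j + 1)).re - (h (i, j)).re) > 0) := by
  obtain ⟨a1, a2⟩ := step1 h1 i j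
  obtain ⟨b1, b2⟩ := step2 h2 i j
  obtain ⟨c1, c2⟩ := step2 h2 (i + 1) j
  rw [abs_le] at a1 a2 b1 b2 c1 c2
  set A := (h (i + 1, j)).re - (h (i, j)).re with hA
  set A' := (h (i + 1, j)).im - (h (i, j)).im with hA'
  set B := (h (i, j + 1)).re - (h (i, j)).re with hB
  set B' := (h (i, j + 1)).im - (h (i, j)).im with hB'
  have e1 : (h (i + 1, j + 1)).re - (h (i, j)).re = A + ((h (i + 1, j + 1)).re - (h (i + 1, j)).re) := by
    rw [hA]; ring
  have e2 : (h (i + 1, j + 1)).im - (h (i, j)).im = A' + ((h (i + 1, j + 1)).im - (h (i + 1, j)).im) := by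
    rw [hA']; ring
  rw [e1, e2]
  set D := (h (i + 1, j + 1)).re - (h (i + 1, j)).re
  set D' := (h (i + 1, j + 1)).im - (h (i + 1, j)).im
  have hA1 : 999 / 1000 * s ≤ A := by linarith
  have hA2 : A ≤ 1001 / 1000 * s := by linarith
  have hB1 : 999 / 1000 * s ≤ B' := by linarith
  have hB2 : B' ≤ 1001 / 1000 * s := by linarith
  have hD1 : 999 / 1000 * s ≤ D' := by linarith
  have hD2 : D' ≤ 1001 / 1000 * s := by linarith
  constructor
  · -- D * A' - D' * A < 0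
    have k1 : D * A' ≤ s / 1000 * (s / 1000) := by
      have : |D * A'| ≤ s / 1000 * (s / 1000) := by
        rw [abs_mul]
        exact mul_le_mul (abs_le.2 c1) (abs_le.2 a2) (abs_nonneg _) (by positivity)
      exact (le_abs_self _).trans this
    have k2 : 999 / 1000 * s * (999 / 1000 * s) ≤ D' * A :=
      mul_le_mul hD1 hA1 (by positivity) (by linarith)
    nlinarith [mul_pos hs hs]
  · have k1 : (A' + D') * B ≤ 2 * s * (s / 1000) := by
      have : |(A' + D') * B| ≤ 2 * s * (s / 1000) := by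
        rw [abs_mul]
        refine mul_le_mul ?_ (abs_le.2 b1) (abs_nonneg _) (by positivity)
        rw [abs_le]; constructor <;> linarith
      exact (le_abs_self _).trans this
    have k2 : 998 / 1000 * s * (999 / 1000 * s) ≤ (A + D) * B' :=
      mul_le_mul (by linarith) hB1 (by positivity) (by linarith)
    nlinarith [mul_pos hs hs]

theorem tri_diam (hs : 0 < s)
    (h1 : ∀ i j : ℤ, ‖h (i + 1, j) - h (i, j) - (s : ℂ)‖ ≤ s / 1000)
    (h2 : ∀ i j : ℤ, ‖h (i, j + 1) - h (i, j) - (s : ℂ) * Complex.I‖ ≤ s / 1000)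
    (k : ℤ × ℤ × Bool) (z : ℂ) (hz : z ∈ tri h k) : ‖z - h (k.1, k.2.1)‖ ≤ 3 * s := by
  have n1 : ∀ i j : ℤ, ‖h (i + 1, j) - h (i, j)‖ ≤ 1001 / 1000 * s := by
    intro i j
    have : h (i + 1, j) - h (i, j) = (h (i + 1, j) - h (i, j) - (s : ℂ)) + (s : ℂ) := by ring
    rw [this]
    refine (norm_add_le _ _).trans ?_
    have : ‖(s : ℂ)‖ = s := by simp [abs_of_pos hs]
    rw [this]; linarith [h1 i j]
  have n2 : ∀ i j : ℤ, ‖h (i, j + 1) - h (i, j)‖ ≤ 1001 / 1000 * s := by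
    intro i j
    have : h (i, j + 1) - h (i, j) = (h (i, j + 1) - h (i, j) - (s : ℂ) * Complex.I)
      + (s : ℂ) * Complex.I := by ring
    rw [this]
    refine (norm_add_le _ _).trans ?_
    have : ‖(s : ℂ) * Complex.I‖ = s := by simp [abs_of_pos hs]
    rw [this]; linarith [h2 i j]
  have hsub : tri h k ⊆ closedBall (h (k.1, k.2.1)) (3 * s) := by
    refine convexHull_min ?_ (convex_closedBall _ _)
    intro w hw
    rw [mem_closedBall, dist_eq_norm]
    simp only [mem_insert_iff, mem_singleton_iff] at hw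
    rcases hw with rfl | rfl | rfl
    · simp; linarith
    · have : h (k.1 + 1, k.2.1 + 1) - h (k.1, k.2.1) =
        (h (k.1 + 1, k.2.1 + 1) - h (k.1 + 1, k.2.1)) + (h (k.1 + 1, k.2.1) - h (k.1, k.2.1)) := by
        ring
      rw [this]
      refine (norm_add_le _ _).trans ?_
      linarith [n1 k.1 k.2.1, n2 (k.1 + 1) k.2.1]
    · split_ifs
      · linarith [n2 k.1 k.2.1]
      · linarith [n1 k.1 k.2.1]
  have := hsub hz
  rwa [mem_closedBall, dist_eq_norm] at this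

theorem tri_eq_false (i j : ℤ) : tri h (i, j, false) =
    convexHull ℝ {h (i, j), h (i + 1, j + 1), h (i + 1, j)} := by simp [tri]

theorem tri_eq_true (i j : ℤ) : tri h (i, j, true) =
    convexHull ℝ {h (i, j), h (i + 1, j + 1), h (i, j + 1)} := by simp [tri]

/-- sides of the lower triangle -/
theorem edge_false (hs : 0 < s)
    (h1 : ∀ i j : ℤ, ‖h (i + 1, j) - h (i, j) - (s : ℂ)‖ ≤ s / 1000)
    (h2 : ∀ i j : ℤ, ‖h (i, j + 1) - h (i, j) - (s : ℂ) * Complex.I‖ ≤ s / 1000) (i j : ℤ) :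
    IsEdge (segment ℝ (h (i, j)) (h (i + 1, j + 1))) (tri h (i, j, false)) ∧
    IsEdge (segment ℝ (h (i, j)) (h (i + 1, j))) (tri h (i, j, false)) ∧
    IsEdge (segment ℝ (h (i + 1, j)) (h (i + 1, j + 1))) (tri h (i, j, false)) := by
  have hd := (tri_det hs h1 h2 i j).1
  rw [tri_eq_false]
  refine ⟨isEdge_triangle _ _ _ hd.ne, ?_, ?_⟩
  · have : ({h (i, j), h (i + 1, j + 1), h (i + 1, j)} : Set ℂ) =
      {h (i, j), h (i + 1, j), h (i + 1, j + 1)} := by ext z; simp; tauto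
    rw [this]
    refine isEdge_triangle _ _ _ ?_
    intro h0; apply hd.ne; linear_combination -h0
  · have : ({h (i, j), h (i + 1, j + 1), h (i + 1, j)} : Set ℂ) =
      {h (i + 1, j), h (i + 1, j + 1), h (i, j)} := by ext z; simp; tauto
    rw [this]
    refine isEdge_triangle _ _ _ ?_
    intro h0; apply hd.ne; linear_combination -h0

theorem edge_true (hs : 0 < s)
    (h1 : ∀ i j : ℤ, ‖h (i + 1, j) - h (i, j) - (s : ℂ)‖ ≤ s / 1000)
    (h2 : ∀ i j : ℤ, ‖h (i, j + 1) - h (i, j) - (s : ℂ) * Complex.I‖ ≤ s / 1000) (i j : ℤ) :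
    IsEdge (segment ℝ (h (i, j)) (h (i + 1, j + 1))) (tri h (i, j, true)) ∧
    IsEdge (segment ℝ (h (i, j + 1)) (h (i + 1, j + 1))) (tri h (i, j, true)) ∧
    IsEdge (segment ℝ (h (i, j)) (h (i, j + 1))) (tri h (i, j, true)) := by
  have hd := (tri_det hs h1 h2 i j).2
  rw [tri_eq_true]
  refine ⟨isEdge_triangle _ _ _ hd.ne', ?_, ?_⟩
  · have : ({h (i, j), h (i + 1, j + 1), h (i, j + 1)} : Set ℂ) =
      {h (i, j + 1), h (i + 1, j + 1), h (i, j)} := by ext z; simp; tauto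
    rw [this]
    refine isEdge_triangle _ _ _ ?_
    intro h0; apply hd.ne'; linear_combination -h0
  · have : ({h (i, j), h (i + 1, j + 1), h (i, j + 1)} : Set ℂ) =
      {h (i, j), h (i, j + 1), h (i + 1, j + 1)} := by ext z; simp; tauto
    rw [this]
    refine isEdge_triangle _ _ _ ?_
    intro h0; apply hd.ne'; linear_combination -h0

theorem edge_of_hex (hs : 0 < s)
    (h1 : ∀ i j : ℤ, ‖h (i + 1, j) - h (i, j) - (s : ℂ)‖ ≤ s / 1000)
    (h2 : ∀ i j : ℤ, ‖h (i, j + 1) - h (i, j) - (s : ℂ) * Complex.I‖ ≤ s / 1000)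
    (i j i' j' : ℤ)
    (hk : (i' = i ∧ j' = j) ∨ (i' = i ∧ j' = j - 1) ∨ (i' = i + 1 ∧ j' = j)) :
    ∃ e, IsEdge e (tri h (i, j, false)) ∧ IsEdge e (tri h (i', j', true)) := by
  obtain ⟨f1, f2, f3⟩ := edge_false hs h1 h2 i j
  obtain ⟨g1, g2, g3⟩ := edge_true hs h1 h2 i' j'
  rcases hk with ⟨rfl, rfl⟩ | ⟨rfl, rfl⟩ | ⟨rfl, rfl⟩
  · exact ⟨_, f1, g1⟩
  · refine ⟨_, f2, ?_⟩
    have : j - 1 + 1 = j := by ring
    rw [this] at g2
    exact g2
  · exact ⟨_, f3, g3⟩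

theorem tri_family (hs : 0 < s)
    (h1 : ∀ i j : ℤ, ‖h (i + 1, j) - h (i, j) - (s : ℂ)‖ ≤ s / 1000)
    (h2 : ∀ i j : ℤ, ‖h (i, j + 1) - h (i, j) - (s : ℂ) * Complex.I‖ ≤ s / 1000) :
    (∀ k, IsPolygon (tri h k)) ∧ (∀ z, ∃ k, z ∈ tri h k) ∧
    (∀ k l, k ≠ l → Disjoint (interior (tri h k)) (interior (tri h l))) ∧
    (∀ k l, k ≠ l → ((∃ e, IsEdge e (tri h k) ∧ IsEdge e (tri h l)) ↔ HexAdj k l)) ∧
    Function.Injective (tri h) := by
  obtain ⟨F, hF⟩ := exists_pl h s hs h1 h2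
  have hpoly : ∀ k, IsPolygon (tri h k) := by
    rintro ⟨i, j, b⟩
    cases b
    · rw [tri_eq_false]; exact isPolygon_triangle _ _ _ (tri_det hs h1 h2 i j).1.ne
    · rw [tri_eq_true]; exact isPolygon_triangle _ _ _ (tri_det hs h1 h2 i j).2.ne'
  have hdisj : ∀ k l, k ≠ l → Disjoint (interior (tri h k)) (interior (tri h l)) := by
    intro k l hkl
    rw [Set.disjoint_iff_inter_eq_empty, ← interior_inter, ← hF k, ← hF l,
      ← Set.image_inter F.injective, ← F.image_interior, std_interior k l hkl, Set.image_empty]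
  refine ⟨hpoly, ?_, hdisj, ?_, ?_⟩
  · intro z
    obtain ⟨k, hk⟩ := std_cover (F.symm z)
    refine ⟨k, ?_⟩
    rw [← hF k]
    exact ⟨_, hk, F.apply_symm_apply z⟩
  · intro k l hkl
    constructor
    · rintro ⟨e, ⟨hne, a, b, c, -, -, he⟩, ⟨-, a', b', c', -, -, he'⟩⟩
      apply std_inter k l hkl
      have hsub : e ⊆ F '' (std k ∩ std l) := by
        rw [Set.image_inter F.injective, hF, hF]
        intro z hz
        refine ⟨?_, ?_⟩
        · rw [he] at hz; exact hz.1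
        · rw [he'] at hz; exact hz.1
      obtain ⟨x, hx, y, hy, hxy⟩ := hne
      obtain ⟨x', hx', rfl⟩ := hsub hx
      obtain ⟨y', hy', rfl⟩ := hsub hy
      exact ⟨x', hx', y', hy', fun h0 => hxy (by rw [h0])⟩
    · obtain ⟨i, j, b⟩ := k
      obtain ⟨i', j', b'⟩ := l
      rintro (⟨hb, hb', hh⟩ | ⟨hb, hb', hh⟩)
      · simp only at hb hb' hh
        subst hb; subst hb'
        exact edge_of_hex hs h1 h2 i j i' j' hh
      · simp only at hb hb' hh
        subst hb; subst hb'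
        obtain ⟨e, he, he'⟩ := edge_of_hex hs h1 h2 i' j' i j hh
        exact ⟨e, he', he⟩
  · intro k l hkl
    by_contra hne
    have h3 := hdisj k l hne
    rw [← hkl, disjoint_self, Set.bot_eq_empty] at h3
    have h4 := (hpoly k).dense_interior
    rw [h3, closure_empty] at h4
    obtain ⟨z, hz⟩ := (hpoly k).nonempty
    exact h4 hz

end

end H994.Mld
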