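import Pool.Agent.H994.Mld.Defs

open Set Metric

namespace H994.Mld

/-- the neighbours of a triangle -/
def nbr : ℤ × ℤ × Bool → Fin 3 → ℤ × ℤ × Bool
  | (i, j, false), 0 => (i, j, true)
  | (i, j, false), 1 => (i, j - 1, true)
  | (i, j, false), 2 => (i + 1, j, true)
  | (i, j, true), 0 => (i, j, false)
  | (i, j, true), 1 => (i, j + 1, false)
  | (i, j, true), 2 => (i - 1, j, false)

theorem hexAdj_iff (l k : ℤ × ℤ × Bool) : HexAdj l k ↔ ∃ m, nbr k m = l := by
  obtain ⟨i, j, b⟩ := k
  obtain ⟨i', j', b'⟩ := l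
  cases b <;> cases b' <;>
    simp only [HexAdj, Fin.exists_fin_succ, nbr, Prod.mk.injEq] <;>
    simp [Fin.exists_fin_succ, nbr] <;> omega

theorem nbr_inj (k : ℤ × ℤ × Bool) : Function.Injective (nbr k) := by
  obtain ⟨i, j, b⟩ := k
  intro m n h
  cases b <;> fin_cases m <;> fin_cases n <;> simp_all [nbr] <;> omega

theorem setOf_hexAdj (k : ℤ × ℤ × Bool) : {l | HexAdj l k} = Set.range (nbr k) := by
  ext l
  exact hexAdj_iff l k

theorem hex_ncard (k : ℤ × ℤ × Bool) : {l | HexAdj l k}.ncard = 3 := by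
  rw [setOf_hexAdj, ← Set.image_univ, Set.ncard_image_of_injective _ (nbr_inj k), Set.ncard_univ]
  simp

theorem hex_sum (k : ℤ × ℤ × Bool) (f : ℤ × ℤ × Bool → ℂ) :
    ∑ᶠ (l) (_ : HexAdj l k), f l = f (nbr k 0) + f (nbr k 1) + f (nbr k 2) := by
  have h1 : ∑ᶠ (l) (_ : HexAdj l k), f l = ∑ᶠ l ∈ Set.range (nbr k), f l := by
    rw [← setOf_hexAdj]; rfl
  rw [h1, finsum_mem_range (nbr_inj k), finsum_eq_sum_of_fintype, Fin.sum_univ_three]

theorem hex_elim (ψ : ℤ × ℤ × Bool → ℂ) (E : ℂ) (hf : (Function.support ψ).Finite)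
    (h : ∀ k, ∑ᶠ (l) (_ : HexAdj l k), (ψ k - ψ l) = E * ψ k) : ψ = 0 := by
  have hL : ∀ i j : ℤ, (ψ (i, j, false) - ψ (i, j, true)) + (ψ (i, j, false) - ψ (i, j - 1, true)) +
      (ψ (i, j, false) - ψ (i + 1, j, true)) = E * ψ (i, j, false) := by
    intro i j
    have := h (i, j, false)
    rw [hex_sum] at this
    exact this
  have hU : ∀ i j : ℤ, (ψ (i, j, true) - ψ (i, j, false)) + (ψ (i, j, true) - ψ (i, j + 1, false)) +
      (ψ (i, j, true) - ψ (i - 1, j, false)) = E * ψ (i, j, true) := by
    intro i j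
    have := h (i, j, true)
    rw [hex_sum] at this
    exact this
  by_contra hne
  have hne' : (Function.support ψ).Nonempty := Function.support_nonempty_iff.2 hne
  obtain ⟨k0, hk0, hmax⟩ := hf.exists_maximalFor (fun k => k.1) _ hne'
  set m := k0.1 with hm
  have hbig : ∀ i j b, m < i → ψ (i, j, b) = 0 := by
    intro i j b hi
    by_contra h0
    have := hmax (j := (i, j, b)) h0 hi.le
    simp only at this
    omega
  have hLm : ∀ j, ψ (m, j, false) = 0 := by
    intro j
    have := hU (m + 1) j
    rw [hbig (m + 1) j true (by omega), hbig (m + 1) j false (by omega),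
      hbig (m + 1) (j + 1) false (by omega), add_sub_cancel_right] at this
    simpa using this
  have hUm : ∀ j, ψ (m, j, true) = - ψ (m, j - 1, true) := by
    intro j
    have := hL m j
    rw [hLm j, hbig (m + 1) j true (by omega)] at this
    linear_combination -this
  have hUz : ∀ j, ψ (m, j, true) = 0 := by
    -- all the values have the same norm, so if one is nonzero the support is infinite
    intro j
    by_contra h0
    have hall : ∀ n : ℕ, ψ (m, j + n, true) ≠ 0 := by
      intro n
      induction n with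
      | zero => simpa using h0
      | succ n ih =>
        rw [hUm]
        have : j + ((n + 1 : ℕ) : ℤ) - 1 = j + n := by push_cast; ring
        rw [this]
        exact neg_ne_zero.2 ih
    have hinf : (Set.range fun n : ℕ => ((m, j + (n : ℤ), true) : ℤ × ℤ × Bool)).Infinite := by
      apply Set.infinite_range_of_injective
      intro a b hab
      simpa using hab
    apply hinf
    refine hf.subset ?_
    rintro _ ⟨n, rfl⟩
    exact hall n
  apply hk0
  obtain ⟨i, j, b⟩ := k0
  simp only at hm
  cases b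
  · exact hLm j
  · exact hUz j

end H994.Mld
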