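import Pool.Agent.H994.Mld.Derive
import Pool.Agent.H994.Mld.H

open Set Metric

namespace H994.Mld

variable {C : Type}

namespace Data
variable {T : Set (Tile C)} (d : Data T)

theorem tile_inj : Function.Injective d.tile := by
  intro k l h
  exact (tri_family d.sp d.h1 d.h2).2.2.2.2 (congrArg Prod.fst h)

theorem isTiling_new : IsTiling d.newT := by
  obtain ⟨hpoly, hcover, hdisj, -, -⟩ := tri_family d.sp d.h1 d.h2
  refine ⟨Set.countable_range _, ?_, ?_, ?_⟩
  · rintro _ ⟨k, rfl⟩; exact hpoly k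
  · intro z
    obtain ⟨k, hk⟩ := hcover z
    exact ⟨d.tile k, ⟨k, rfl⟩, hk⟩
  · rintro _ ⟨k, rfl⟩ _ ⟨l, rfl⟩ hkl
    exact hdisj k l fun h => hkl (by rw [h])

theorem adj_iff (k l : ℤ × ℤ × Bool) : Adj (d.tile k) (d.tile l) ↔ HexAdj k l := by
  obtain ⟨-, -, -, hedge, -⟩ := tri_family d.sp d.h1 d.h2
  by_cases hkl : k = l
  · subst hkl
    constructor
    · rintro ⟨h, -⟩; exact absurd rfl h
    · rintro (⟨h1, h2, -⟩ | ⟨h1, h2, -⟩) <;> rw [h1] at h2 <;> exact absurd h2 (by simp)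
  · rw [← hedge k l hkl]
    constructor
    · rintro ⟨-, e, h1, h2⟩; exact ⟨e, h1, h2⟩
    · rintro ⟨e, h1, h2⟩
      exact ⟨fun h => hkl (d.tile_inj h), e, h1, h2⟩

/-- the vertices of the graph of the new tiling are the triangles of the lattice triangulation -/
noncomputable def eqv : (ℤ × ℤ × Bool) ≃ d.newT := Equiv.ofInjective d.tile d.tile_inj

theorem eqv_coe (k : ℤ × ℤ × Bool) : (d.eqv k : Tile (Set (Tile C))) = d.tile k := rfl

theorem no_eigenfunction : ¬ HasLocallySupportedEigenfunction d.newT := by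
  rintro ⟨ψ, hne, hfin, E, hE⟩
  apply hne
  have h := hex_elim (fun k => ψ (d.eqv k)) (E : ℂ) ?_ ?_
  · funext v
    have := congrFun h (d.eqv.symm v)
    simpa using this
  · have : Function.support (fun k => ψ (d.eqv k)) = d.eqv ⁻¹' (Function.support ψ) := rfl
    rw [this]
    exact hfin.preimage d.eqv.injective.injOn
  · intro k
    have h1 := hE (d.eqv k)
    rw [← h1]
    have h2 := finsum_comp_equiv d.eqv (f := fun u : d.newT =>
      ∑ᶠ (_ : Adj u.1 (d.eqv k).1), (ψ (d.eqv k) - ψ u))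
    rw [← h2]
    congr 1
    funext l
    simp only [eqv_coe]
    rw [d.adj_iff]

theorem degree (v : d.newT) : {u : d.newT | Adj u.1 v.1}.ncard = 3 := by
  obtain ⟨k, rfl⟩ := d.eqv.surjective v
  rw [← hex_ncard k]
  have : {u : d.newT | Adj u.1 (d.eqv k).1} = d.eqv '' {l | HexAdj l k} := by
    ext u
    obtain ⟨l, rfl⟩ := d.eqv.surjective u
    rw [mem_setOf_eq, eqv_coe, eqv_coe, d.adj_iff]
    simp
  rw [this, Set.ncard_image_of_injective _ d.eqv.injective]

end Data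

theorem main (C : Type) (T : Set (Tile C)) (hT : IsTiling T) (hF : FLC T) :
    ∃ (C' : Type) (T' : Set (Tile C')), IsTiling T' ∧ MLD T T' ∧
      (∃ e : (ℤ × ℤ × Bool) ≃ T', ∀ k l, Adj (e k).1 (e l).1 ↔ HexAdj k l) ∧
      (∀ v : T', {u : T' | Adj u.1 v.1}.ncard = 3) ∧ ¬ HasLocallySupportedEigenfunction T' := by
  obtain ⟨d⟩ := exists_data T hT hF
  exact ⟨Set (Tile C), d.newT, d.isTiling_new, ⟨d.derive_new hT, d.derive_old hT⟩,
    ⟨d.eqv, fun k l => d.adj_iff k l⟩, d.degree, d.no_eigenfunction⟩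

end H994.Mld
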